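import Pool.Agent.Lib.SmF.Kummer
import Pool.Agent.Lib.Sm.JDefs
import Pool.Agent.Lib.BSDP.R.Recip

/-!
# SMITH, block F: values of the quadratic characters at the places of `k(t)`

`LocVals sg ph` is what block D delivers about the chosen tame generators `sg v` and Frobenius
elements `ph v` (`v` a place of `k(t)`): D5 of the interfaces. From it the values of `chi f`, `f` a
polynomial, at the finite places `placeOf P hP` and at infinity.
-/

set_option autoImplicit false

open Polynomial Pool.Agent.BSDFF Pool.Agent.BSDP.R Pool.Agent.Lib.SmD Pool.Agent.Sm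

namespace Pool.Agent.SmF

variable {k Ω : Type} [Field k] [Field Ω] [Algebra (RatFunc k) Ω]

/-- D5: the values of the quadratic characters at the chosen elements of the decomposition
groups. -/
structure LocVals (sg ph : Place k (RatFunc k) → (Ω ≃ₐ[RatFunc k] Ω)) : Prop where
  sg_unit : ∀ v (f : RatFunc k), f ≠ 0 → f ∈ v.ring → f⁻¹ ∈ v.ring → chi (RatFunc k) f (sg v) = 0
  sg_unif : ∀ v (π : v.ring), Irreducible π → chi (RatFunc k) (π : RatFunc k) (sg v) = 1
  ph_unit : ∀ v (u : v.ring), IsUnit u →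
    (chi (RatFunc k) (u : RatFunc k) (ph v) = 0 ↔ IsSquare (IsLocalRing.residue v.ring u))

/-- `eps v = (q_v - 1) / 2` modulo `2`, `q_v` the number of elements of the residue field. -/
noncomputable def eps (v : Place k (RatFunc k)) : ZMod 2 :=
  (((Nat.card (IsLocalRing.ResidueField v.ring) - 1) / 2 : ℕ) : ZMod 2)

/-- `1` if `x` is not a square, `0` otherwise -/
noncomputable def sq2 {F : Type} [Field F] (x : F) : ZMod 2 :=
  open Classical in if IsSquare x then 0 else 1

theorem sq2_eq_zero {F : Type} [Field F] (x : F) : sq2 x = 0 ↔ IsSquare x := by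
  unfold sq2
  constructor
  · intro h
    by_contra h1
    rw [if_neg h1] at h
    exact one_ne_zero h
  · intro h
    rw [if_pos h]

theorem leg_eq_zero (P f : k[X]) (h : ¬ P ∣ f) : leg P f = 0 ↔ IsSquare (AdjoinRoot.mk P f) := by
  unfold leg chiP
  rw [if_neg h]
  constructor
  · intro h1
    by_contra h3
    rw [if_neg h3, if_pos rfl] at h1
    exact one_ne_zero h1
  · intro h1
    rw [if_pos h1, if_neg (by norm_num)]

theorem zmod2_eq_of_iff {a b : ZMod 2} (h : a = 0 ↔ b = 0) : a = b := by
  revert a b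
  decide

theorem zmod2_ne_zero {a : ZMod 2} (h : a ≠ 0) : a = 1 := by
  revert a
  decide

/-- unit in the valuation ring -/
theorem unit_mem {v : Place k (RatFunc k)} {u : v.ring} (hu : IsUnit u) :
    (u : RatFunc k) ≠ 0 ∧ (u : RatFunc k)⁻¹ ∈ v.ring := by
  obtain ⟨y, hy⟩ := hu.exists_right_inv
  have h1 : (u : RatFunc k) * (y : RatFunc k) = 1 := by
    have := congrArg (fun z : v.ring => (z : RatFunc k)) hy
    exact this
  have h0 : (u : RatFunc k) ≠ 0 := left_ne_zero_of_mul_eq_one h1
  refine ⟨h0, ?_⟩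
  rw [inv_eq_of_mul_eq_one_right h1]
  exact y.2

section
variable {sg ph : Place k (RatFunc k) → (Ω ≃ₐ[RatFunc k] Ω)}

theorem LocVals.sg_isUnit (H : LocVals sg ph) {v : Place k (RatFunc k)} {u : v.ring}
    (hu : IsUnit u) : chi (RatFunc k) (u : RatFunc k) (sg v) = 0 :=
  H.sg_unit v _ (unit_mem hu).1 u.2 (unit_mem hu).2

/-- the image of a constant in the valuation ring -/
noncomputable def cst (v : Place k (RatFunc k)) (c : k) : v.ring :=
  ⟨algebraMap k (RatFunc k) c, v.const_mem c⟩

theorem cst_isUnit (v : Place k (RatFunc k)) {c : k} (hc : c ≠ 0) : IsUnit (cst v c) := by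
  refine IsUnit.of_mul_eq_one (cst v c⁻¹) ?_
  apply Subtype.ext
  change algebraMap k (RatFunc k) c * algebraMap k (RatFunc k) c⁻¹ = 1
  rw [← map_mul, mul_inv_cancel₀ hc, map_one]

/-- constants are unramified -/
theorem LocVals.sg_const (H : LocVals sg ph) (v : Place k (RatFunc k)) {c : k} (hc : c ≠ 0) :
    chi (RatFunc k) (algebraMap k (RatFunc k) c) (sg v) = 0 :=
  H.sg_isUnit (cst_isUnit v hc)

theorem polyC (c : k) : algebraMap k[X] (RatFunc k) (C c) = algebraMap k (RatFunc k) c := by
  rw [IsScalarTower.algebraMap_apply k k[X] (RatFunc k)]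
  rfl

/-! ### Finite places -/

/-- `P` is a uniformizer at `placeOf P` -/
theorem unif_placeOf {P : k[X]} (hP : Irreducible P) :
    Irreducible (polyHom (placeOf P hP) (X_mem_placeOf P hP) P) := by
  rw [IsDiscreteValuationRing.irreducible_iff_uniformizer]
  ext x
  rw [Ideal.mem_span_singleton]
  constructor
  · intro h
    have hn : ¬ IsUnit x := (IsLocalRing.mem_maximalIdeal x).1 h
    have hd : ¬ P ∣ (x : RatFunc k).denom :=
      (ring_mem_iff _ (X_mem_placeOf P hP) hP (nonunit_placeOf P hP) _).1 x.2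
    have hd1 : IsUnit (polyHom (placeOf P hP) (X_mem_placeOf P hP) (x : RatFunc k).denom) :=
      (polyHom_unit_iff _ _ hP (nonunit_placeOf P hP) _).2 hd
    have hd0 : algebraMap k[X] (RatFunc k) (x : RatFunc k).denom ≠ 0 := by
      simpa using RatFunc.denom_ne_zero (x : RatFunc k)
    have hx : x * polyHom (placeOf P hP) (X_mem_placeOf P hP) (x : RatFunc k).denom =
        polyHom (placeOf P hP) (X_mem_placeOf P hP) (x : RatFunc k).num := by
      apply Subtype.ext
      exact (eq_div_iff hd0).mp (RatFunc.num_div_denom (x : RatFunc k)).symm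
    have hnum : P ∣ (x : RatFunc k).num := by
      by_contra h1
      have h2 := (polyHom_unit_iff _ _ hP (nonunit_placeOf P hP) _).2 h1
      rw [← hx] at h2
      exact hn (isUnit_of_mul_isUnit_left h2)
    obtain ⟨r, hr⟩ := hnum
    rw [hr, map_mul] at hx
    obtain ⟨y, hy⟩ := hd1.exists_right_inv
    refine ⟨polyHom (placeOf P hP) (X_mem_placeOf P hP) r * y, ?_⟩
    rw [← mul_assoc, ← hx, mul_assoc, hy, mul_one]
  · rintro ⟨y, rfl⟩
    rw [IsLocalRing.mem_maximalIdeal]
    exact fun h => nonunit_placeOf P hP (isUnit_of_mul_isUnit_left h)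

/-- the ramification of `P` at `P` -/
theorem LocVals.sg_self (H : LocVals sg ph) {P : k[X]} (hP : Irreducible P) :
    chi (RatFunc k) (algebraMap k[X] (RatFunc k) P) (sg (placeOf P hP)) = 1 :=
  H.sg_unif _ _ (unif_placeOf hP)

/-- `f` is unramified at the primes not dividing it -/
theorem LocVals.sg_of_not_dvd (H : LocVals sg ph) {P : k[X]} (hP : Irreducible P) {f : k[X]}
    (hf : ¬ P ∣ f) : chi (RatFunc k) (algebraMap k[X] (RatFunc k) f) (sg (placeOf P hP)) = 0 :=
  H.sg_isUnit ((polyHom_unit_iff _ (X_mem_placeOf P hP) hP (nonunit_placeOf P hP) _).2 hf)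

/-- the value at the Frobenius element of `P` is the Legendre symbol -/
theorem LocVals.ph_leg (H : LocVals sg ph) {P : k[X]} (hP : Irreducible P) {f : k[X]}
    (hf : ¬ P ∣ f) :
    chi (RatFunc k) (algebraMap k[X] (RatFunc k) f) (ph (placeOf P hP)) = leg P f := by
  apply zmod2_eq_of_iff
  rw [leg_eq_zero P f hf]
  have h1 := H.ph_unit (placeOf P hP) (polyHom _ (X_mem_placeOf P hP) f)
    ((polyHom_unit_iff _ (X_mem_placeOf P hP) hP (nonunit_placeOf P hP) _).2 hf)
  obtain ⟨e, he⟩ := residue_equiv (placeOf P hP) (X_mem_placeOf P hP) hP (nonunit_placeOf P hP)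
  rw [← he f] at h1
  refine h1.trans ?_
  constructor
  · rintro ⟨r, hr⟩
    refine ⟨e.symm r, ?_⟩
    rw [← map_mul, ← hr, RingEquiv.symm_apply_apply]
  · rintro ⟨r, hr⟩
    exact ⟨e r, by rw [hr, map_mul]⟩

/-! ### Infinity -/

theorem unif_infty : Irreducible (sInf k) := by
  rw [IsDiscreteValuationRing.irreducible_iff_uniformizer]
  exact maximalIdeal_infty

theorem LocVals.sg_X [IsSepClosure (RatFunc k) Ω] (H : LocVals sg ph) (h2 : (2 : k) ≠ 0) :
    chi (RatFunc k) (RatFunc.X : RatFunc k) (sg (placeInfty k)) = 1 := by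
  have h2' : (2 : RatFunc k) ≠ 0 := by
    intro h
    apply h2
    apply (algebraMap k (RatFunc k)).injective
    rw [map_ofNat, h, map_zero]
  have h1 := H.sg_unif (placeInfty k) (sInf k) unif_infty
  change chi (RatFunc k) (RatFunc.X⁻¹ : RatFunc k) _ = 1 at h1
  rwa [chi_inv h2' RatFunc.X_ne_zero] at h1

/-- the unit part of a monic polynomial at infinity is a unit with residue `1` -/
theorem monic_infty {f : k[X]} (hf : f.Monic) :
    ∃ u : (placeInfty k).ring, IsUnit u ∧ IsLocalRing.residue _ u = 1 ∧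
      algebraMap k[X] (RatFunc k) f = (u : RatFunc k) * RatFunc.X ^ f.natDegree := by
  have hX : (RatFunc.X : RatFunc k) ≠ 0 := RatFunc.X_ne_zero
  have hf0 : algebraMap k[X] (RatFunc k) f ≠ 0 := by
    simpa using hf.ne_zero
  have hXd : ∀ n : ℕ, (RatFunc.X ^ n : RatFunc k).intDegree = n := by
    intro n
    induction n with
    | zero => simp
    | succ n ih =>
      rw [pow_succ, RatFunc.intDegree_mul (pow_ne_zero _ hX) hX, ih, RatFunc.intDegree_X]
      push_cast
      ring
  have hdeg : ∀ g : k[X], g ≠ 0 → ∀ n : ℕ,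
      (algebraMap k[X] (RatFunc k) g * (RatFunc.X ^ n)⁻¹).intDegree =
        (g.natDegree : ℤ) - (n : ℤ) := by
    intro g hg n
    have hg0 : algebraMap k[X] (RatFunc k) g ≠ 0 := by simpa using hg
    rw [RatFunc.intDegree_mul hg0 (inv_ne_zero (pow_ne_zero _ hX)), RatFunc.intDegree_inv, hXd,
      RatFunc.intDegree_polynomial]
    ring
  have h0 := hdeg f hf.ne_zero f.natDegree
  have hne : algebraMap k[X] (RatFunc k) f * (RatFunc.X ^ f.natDegree)⁻¹ ≠ 0 :=
    mul_ne_zero hf0 (inv_ne_zero (pow_ne_zero _ hX))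
  have hmem : algebraMap k[X] (RatFunc k) f * (RatFunc.X ^ f.natDegree)⁻¹ ∈
      (placeInfty k).ring := by
    rw [mem_placeInfty_iff]
    right
    omega
  refine ⟨⟨_, hmem⟩, ?_, ?_, ?_⟩
  · rw [isUnit_infty_iff]
    exact ⟨hne, by rw [h0]; omega⟩
  · rw [← sub_eq_zero, ← map_one (IsLocalRing.residue (placeInfty k).ring), ← map_sub,
      IsLocalRing.residue_eq_zero_iff, IsLocalRing.mem_maximalIdeal, mem_nonunits_iff,
      isUnit_infty_iff]
    rintro ⟨h1, h3⟩
    have h4 : ((⟨_, hmem⟩ : (placeInfty k).ring) - 1 : (placeInfty k).ring) =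
        (algebraMap k[X] (RatFunc k) f * (RatFunc.X ^ f.natDegree)⁻¹ - 1 : RatFunc k) := rfl
    have h5 : algebraMap k[X] (RatFunc k) f * (RatFunc.X ^ f.natDegree)⁻¹ - 1 =
        algebraMap k[X] (RatFunc k) (f - X ^ f.natDegree) * (RatFunc.X ^ f.natDegree)⁻¹ := by
      rw [map_sub, map_pow, RatFunc.algebraMap_X, sub_mul,
        mul_inv_cancel₀ (pow_ne_zero _ hX)]
    rw [h4, h5] at h1 h3
    have h6 : f - X ^ f.natDegree ≠ 0 := by
      intro h7
      rw [h7] at h1
      simp at h1
    rw [hdeg _ h6] at h3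
    have h7 : (f - X ^ f.natDegree).natDegree = f.natDegree := by omega
    have h8 : (f - X ^ f.natDegree).coeff f.natDegree = 0 := by
      rw [coeff_sub, coeff_X_pow, if_pos rfl, hf.coeff_natDegree, sub_self]
    rw [← h7] at h8
    have h9 : (f - X ^ (f - X ^ f.natDegree).natDegree).leadingCoeff = 0 := by
      have h10 : (f - X ^ (f - X ^ f.natDegree).natDegree) = f - X ^ f.natDegree := by rw [h7]
      rw [h10, leadingCoeff]
      rw [h7] at h8 ⊢
      exact h8
    have h10 : (f - X ^ (f - X ^ f.natDegree).natDegree) = f - X ^ f.natDegree := by rw [h7]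
    rw [h10, leadingCoeff_eq_zero] at h9
    exact h6 h9
  · change _ = algebraMap k[X] (RatFunc k) f * (RatFunc.X ^ f.natDegree)⁻¹ * RatFunc.X ^ f.natDegree
    rw [mul_assoc, inv_mul_cancel₀ (pow_ne_zero _ hX), mul_one]

theorem two_ratFunc (h2 : (2 : k) ≠ 0) : (2 : RatFunc k) ≠ 0 := by
  intro h
  apply h2
  apply (algebraMap k (RatFunc k)).injective
  rw [map_ofNat, h, map_zero]

/-- the ramification of a monic polynomial at infinity is its degree -/
theorem LocVals.sg_infty [IsSepClosure (RatFunc k) Ω] (H : LocVals sg ph) (h2 : (2 : k) ≠ 0)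
    {f : k[X]} (hf : f.Monic) :
    chi (RatFunc k) (algebraMap k[X] (RatFunc k) f) (sg (placeInfty k)) = f.natDegree := by
  obtain ⟨u, hu, -, h1⟩ := monic_infty hf
  rw [h1, chi_mul_elt (two_ratFunc h2) (unit_mem hu).1 (pow_ne_zero _ RatFunc.X_ne_zero),
    chi_pow (two_ratFunc h2) RatFunc.X_ne_zero, H.sg_X h2, H.sg_isUnit hu, zero_add, mul_one]

/-- the value of a monic polynomial at the Frobenius element of infinity -/
theorem LocVals.ph_infty [IsSepClosure (RatFunc k) Ω] (H : LocVals sg ph) (h2 : (2 : k) ≠ 0)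
    {f : k[X]} (hf : f.Monic) :
    chi (RatFunc k) (algebraMap k[X] (RatFunc k) f) (ph (placeInfty k)) =
      f.natDegree * chi (RatFunc k) (RatFunc.X : RatFunc k) (ph (placeInfty k)) := by
  obtain ⟨u, hu, hr, h1⟩ := monic_infty hf
  have h3 : chi (RatFunc k) (u : RatFunc k) (ph (placeInfty k)) = 0 :=
    (H.ph_unit _ u hu).2 ⟨1, by rw [hr, mul_one]⟩
  rw [h1, chi_mul_elt (two_ratFunc h2) (unit_mem hu).1 (pow_ne_zero _ RatFunc.X_ne_zero),
    chi_pow (two_ratFunc h2) RatFunc.X_ne_zero, h3, zero_add]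

/-- the value of a constant at the Frobenius element of infinity -/
theorem LocVals.ph_const_infty (H : LocVals sg ph) {c : k} (hc : c ≠ 0) :
    chi (RatFunc k) (algebraMap k (RatFunc k) c) (ph (placeInfty k)) = sq2 c := by
  apply zmod2_eq_of_iff
  rw [sq2_eq_zero]
  refine (H.ph_unit _ (cst (placeInfty k) c) (cst_isUnit _ hc)).trans ?_
  have h1 : ∀ x : k, IsLocalRing.residue (placeInfty k).ring (cst (placeInfty k) x) =
      (placeInfty k).constMap x := fun _ => rfl
  rw [h1]
  constructor
  · rintro ⟨r, hr⟩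
    obtain ⟨y, rfl⟩ := constMap_infty_surjective r
    refine ⟨y, ?_⟩
    apply (placeInfty k).constMap.injective
    rw [hr, map_mul]
  · rintro ⟨r, rfl⟩
    exact ⟨_, map_mul _ _ _⟩

/-- the residue fields are finite -/
theorem residueField_finite [Finite k] (v : Place k (RatFunc k)) :
    Finite (IsLocalRing.ResidueField v.ring) := by
  rcases place_cases v with rfl | ⟨P, hP, -, rfl⟩
  · exact Finite.of_surjective _ constMap_infty_surjective
  · exact residue_finite _ (X_mem_placeOf P hP) hP (nonunit_placeOf P hP)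

theorem neg_one_square {F : Type} [Field F] [Finite F] (h2 : (2 : F) ≠ 0) :
    IsSquare (-1 : F) ↔ (((Nat.card F - 1) / 2 : ℕ) : ZMod 2) = 0 := by
  have := Fintype.ofFinite F
  rw [FiniteField.isSquare_neg_one_iff, ← Nat.card_eq_fintype_card,
    ZMod.natCast_eq_zero_iff]
  have hodd : Nat.card F % 2 = 1 := by
    rw [Nat.card_eq_fintype_card]
    apply FiniteField.odd_card_of_char_ne_two
    intro h
    apply h2
    have := CharP.cast_eq_zero F (ringChar F)
    rw [h] at this
    exact_mod_cast this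
  omega

/-- `eps v` is the value of `-1` at the Frobenius element -/
theorem LocVals.eps_eq [Finite k] (H : LocVals sg ph) (h2 : (2 : k) ≠ 0)
    (v : Place k (RatFunc k)) : chi (RatFunc k) (-1 : RatFunc k) (ph v) = eps v := by
  have hfin := residueField_finite v
  have h2' : (2 : IsLocalRing.ResidueField v.ring) ≠ 0 := by
    intro h
    apply h2
    apply v.constMap.injective
    rw [map_ofNat, h, map_zero]
  apply zmod2_eq_of_iff
  unfold eps
  rw [← neg_one_square h2']
  have h1 := H.ph_unit v (-1) isUnit_one.neg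
  rw [map_neg, map_one] at h1
  exact h1

end

end Pool.Agent.SmF
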