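import Pool.Agent.Lib.SmF.Base

/-!
# SMITH, block F: Kummer theory (F1)

Every `2`-finite homomorphism `G → ZMod 2` is `chi K f` for some `f ∈ Kˣ`.
-/

set_option autoImplicit false

namespace Pool.Agent.SmF

open Pool.Agent.Lib.SmD Pool.Agent.SmD IntermediateField

variable {K Ω : Type} [Field K] [Field Ω] [Algebra K Ω]

private theorem Kummer_exists [IsSepClosure K Ω] (h2 : (2 : K) ≠ 0) {c : (Ω ≃ₐ[K] Ω) → ZMod 2}
    (hc : HomG c) : ∃ z : Ω, z ≠ 0 ∧ ∀ s, s z = (-1) ^ (c s).val * z := by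
  classical
  obtain ⟨⟨N, hN, hcN⟩, hadd⟩ := hc
  have hgal : IsGalois K Ω := inferInstance
  obtain ⟨L, hfd, hLg, -, hLN⟩ := exists_field_of_mem_NN hN
  have hfi : N.FiniteIndex := NN.finiteIndex hN
  have hfin : Fintype ((Ω ≃ₐ[K] Ω) ⧸ N) := Fintype.ofFinite _
  have hfix : ∀ n ∈ N, ∀ x ∈ L, n x = x := by
    intro n hn x hx
    rw [← hLN, IntermediateField.mem_fixingSubgroup_iff] at hn
    exact hn x hx
  have hmem : ∀ g : Ω ≃ₐ[K] Ω, (∀ x ∈ L, g x = x) → g ∈ N := by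
    intro g hg
    rw [← hLN, IntermediateField.mem_fixingSubgroup_iff]
    exact hg
  -- the restrictions of the representatives to `L`
  let ψ : ((Ω ≃ₐ[K] Ω) ⧸ N) → (L →* Ω) := fun q =>
    ((q.out : Ω ≃ₐ[K] Ω) : Ω →* Ω).comp (algebraMap L Ω : L →* Ω)
  have hψ : Function.Injective ψ := by
    intro q q' h
    have h1 : (q.out)⁻¹ * q'.out ∈ N := by
      refine hmem _ fun x hx => ?_
      have h3 := DFunLike.congr_fun h (⟨x, hx⟩ : L)
      have h4 : (q.out : Ω ≃ₐ[K] Ω) x = (q'.out : Ω ≃ₐ[K] Ω) x := h3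
      rw [AlgEquiv.mul_apply, ← h4, ← AlgEquiv.mul_apply, inv_mul_cancel]
      rfl
    rw [← QuotientGroup.out_eq' q, ← QuotientGroup.out_eq' q']
    exact QuotientGroup.eq.2 h1
  have hli := (linearIndependent_monoidHom L Ω).comp ψ hψ
  -- the twisted trace
  let T : L → Ω := fun x => ∑ q, (-1 : Ω) ^ (c q.out).val * ψ q x
  have hT : ∃ x, T x ≠ 0 := by
    by_contra hcon
    push Not at hcon
    have h1 : ∑ q, ((-1 : Ω) ^ (c q.out).val) • (fun x : L => ψ q x) = 0 := by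
      funext x
      rw [Finset.sum_apply]
      exact hcon x
    have h3 := (Fintype.linearIndependent_iff.1 hli) (fun q => (-1 : Ω) ^ (c q.out).val) h1
      (QuotientGroup.mk 1)
    exact pow_ne_zero _ (neg_ne_zero.2 one_ne_zero) h3
  obtain ⟨x, hx⟩ := hT
  have hneg : ∀ a b : ZMod 2, (-1 : Ω) ^ (a + b).val = (-1) ^ a.val * (-1) ^ b.val := by
    intro a b
    rw [ZMod.val_add, ← neg_one_pow_eq_pow_mod_two, pow_add]
  have hsq : ∀ a : ZMod 2, (-1 : Ω) ^ a.val * (-1) ^ a.val = 1 := by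
    intro a
    rw [← pow_add, ← two_mul, pow_mul]
    simp
  refine ⟨T x, hx, fun s => ?_⟩
  have h1 : s (T x) = ∑ q, (-1 : Ω) ^ (c q.out).val * s (ψ q x) := by
    simp only [T, map_sum, map_mul, map_pow, map_neg, map_one]
  have h3 : ∀ q : (Ω ≃ₐ[K] Ω) ⧸ N, s (ψ q x) = ψ (s • q) x ∧
      c (s • q).out = c s + c q.out := by
    intro q
    have h4 : ((s • q).out)⁻¹ * (s * q.out) ∈ N := by
      rw [← QuotientGroup.eq, QuotientGroup.out_eq']
      conv_lhs => rw [← QuotientGroup.out_eq' q]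
      rfl
    have h5 : s * q.out = (s • q).out * (((s • q).out)⁻¹ * (s * q.out)) := by group
    constructor
    · change s (q.out (x : Ω)) = (s • q).out (x : Ω)
      rw [← AlgEquiv.mul_apply, h5, AlgEquiv.mul_apply, hfix _ h4 _ x.2]
    · rw [← hadd, h5, hcN _ _ h4]
  rw [h1]
  have h4 : ∀ q : (Ω ≃ₐ[K] Ω) ⧸ N, (-1 : Ω) ^ (c q.out).val * s (ψ q x) =
      (-1) ^ (c s).val * ((-1) ^ (c (s • q).out).val * ψ (s • q) x) := by
    intro q
    rw [(h3 q).1, (h3 q).2, hneg, ← mul_assoc, ← mul_assoc, hsq, one_mul]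
  rw [Finset.sum_congr rfl fun q _ => h4 q, ← Finset.mul_sum]
  congr 1
  exact (MulAction.bijective s).sum_comp
    (fun q : (Ω ≃ₐ[K] Ω) ⧸ N => (-1 : Ω) ^ (c q.out).val * ψ q x)

/-- F1: every `2`-finite homomorphism is a quadratic character. -/
theorem kummer [IsSepClosure K Ω] (h2 : (2 : K) ≠ 0) {c : (Ω ≃ₐ[K] Ω) → ZMod 2}
    (hc : HomG c) : ∃ f : K, f ≠ 0 ∧ ∀ s, c s = chi K f s := by
  obtain ⟨z, hz, hs⟩ := Kummer_exists h2 hc
  have h1 : ∀ s : Ω ≃ₐ[K] Ω, s (z ^ 2) = z ^ 2 := by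
    intro s
    rw [map_pow, hs s, mul_pow, ← pow_mul, mul_comm (c s).val 2, pow_mul]
    simp
  have h3 := (InfiniteGalois.mem_bot_iff_fixed (k := K) (K := Ω) (z ^ 2)).2 h1
  obtain ⟨f, hf⟩ := IntermediateField.mem_bot.1 h3
  have hf0 : f ≠ 0 := by
    rintro rfl
    rw [map_zero] at hf
    exact pow_ne_zero 2 hz hf.symm
  exact ⟨f, hf0, fun s => (chi_eq_of h2 hf0 hf.symm s _ (hs s)).symm⟩

end Pool.Agent.SmF
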