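import Mathlib

/-!
# SMITH, block F: maximal isotropic subspaces over `F_2`

`L`, `W` isotropic of square order `#U` for a nondegenerate symmetric form on the finite
`F_2`-vector space `U`: a vector orthogonal to `L ∩ W` is in `L + W`.
-/

set_option autoImplicit false

namespace Pool.Agent.SmF

open LinearMap LinearMap.BilinForm

variable {U : Type} [AddCommGroup U] [Module (ZMod 2) U] [Finite U]

private theorem Lag_card (L : Submodule (ZMod 2) U) :
    Nat.card L = 2 ^ Module.finrank (ZMod 2) L := by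
  rw [Module.natCard_eq_pow_finrank (K := ZMod 2)]
  simp

private theorem Lag_self (B : LinearMap.BilinForm (ZMod 2) U) (hB : B.Nondegenerate)
    (L : Submodule (ZMod 2) U) (hL : ∀ x ∈ L, ∀ y ∈ L, B x y = 0)
    (hc : Nat.card L ^ 2 = Nat.card U) : B.orthogonal L = L := by
  have hfd : FiniteDimensional (ZMod 2) U := Module.Finite.of_finite
  have h1 : L ≤ B.orthogonal L := fun x hx y hy => hL y hy x hx
  refine (Submodule.eq_of_le_of_finrank_eq h1 ?_).symm
  rw [finrank_orthogonal hB]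
  have h3 : Nat.card U = 2 ^ Module.finrank (ZMod 2) U := by
    rw [Module.natCard_eq_pow_finrank (K := ZMod 2)]
    simp
  rw [Lag_card, h3, ← pow_mul] at hc
  have h4 := Nat.pow_right_injective (le_refl 2) hc
  omega

theorem lag (B : LinearMap.BilinForm (ZMod 2) U) (hB : B.Nondegenerate) (hs : B.IsSymm)
    (L W : Submodule (ZMod 2) U) (hL : ∀ x ∈ L, ∀ y ∈ L, B x y = 0)
    (hW : ∀ x ∈ W, ∀ y ∈ W, B x y = 0) (hcL : Nat.card L ^ 2 = Nat.card U)
    (hcW : Nat.card W ^ 2 = Nat.card U) (x : U) (hx : ∀ b ∈ L, b ∈ W → B x b = 0) :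
    ∃ l ∈ L, ∃ w ∈ W, x = l + w := by
  have hfd : FiniteDimensional (ZMod 2) U := Module.Finite.of_finite
  have hL' := Lag_self B hB L hL hcL
  have hW' := Lag_self B hB W hW hcW
  have hr : B.IsRefl := hs.isRefl
  have h1 : B.orthogonal (L ⊔ W) = L ⊓ W := by
    apply le_antisymm
    · refine le_inf ?_ ?_
      · exact (orthogonal_le le_sup_left).trans hL'.le
      · exact (orthogonal_le le_sup_right).trans hW'.le
    · rintro y ⟨hy1, hy2⟩ z hz
      obtain ⟨l, hl, w, hw, rfl⟩ := Submodule.mem_sup.1 hz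
      change B (l + w) y = 0
      rw [map_add, LinearMap.add_apply, hL l hl y hy1, hW w hw y hy2, add_zero]
  have h3 : B.orthogonal (L ⊓ W) = L ⊔ W := by
    rw [← h1, orthogonal_orthogonal hB hr]
  have h4 : x ∈ B.orthogonal (L ⊓ W) := by
    rintro b ⟨hb1, hb2⟩
    exact hr _ _ (hx b hb1 hb2)
  rw [h3] at h4
  obtain ⟨l, hl, w, hw, h5⟩ := Submodule.mem_sup.1 h4
  exact ⟨l, hl, w, hw, h5.symm⟩

end Pool.Agent.SmF
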