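import Pool.Agent.Lib.SmF.RecipV
import Pool.Agent.Lib.SmF.Lag

/-!
# SMITH, block F: duality (F4)

Let `W v` be isotropic subgroups of order `4` of the groups `V1 × V1` of local values, almost all
equal to the unramified group, `xi v` local classes, almost all in `W v`. If `xi` is orthogonal to the
global homomorphisms with all local values in `W`, then `xi` differs from the local values of a
global homomorphism by elements of `W v` at every place.

Proof. `T` finite with `∞`, containing all exceptional places. The homomorphisms unramified outside `T`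
form the group of all `Γ b`, `b : T → V1` (`S`-units modulo squares); `b ↦` local values is injective
with isotropic image `L` (reciprocity), `#L = 4 ^ #T`; `∏ W v` is isotropic with `4 ^ #T` elements in
the space of `16 ^ #T` elements. Linear algebra (`lag`).
-/

set_option autoImplicit false

open Polynomial Pool.Agent.BSDFF Pool.Agent.BSDP.R Pool.Agent.Lib.SmD Pool.Agent.Sm

namespace Pool.Agent.SmF

theorem sym_comm (ep : ZMod 2) (x y : V1 × V1) : sym ep x y = sym ep y x := by
  unfold sym ee
  ring

theorem sym_add_left (ep : ZMod 2) (x x' y : V1 × V1) :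
    sym ep (x + x') y = sym ep x y + sym ep x' y := by
  unfold sym ee
  simp only [Prod.fst_add, Prod.snd_add]
  ring

theorem sym_add_right (ep : ZMod 2) (x y y' : V1 × V1) :
    sym ep x (y + y') = sym ep x y + sym ep x y' := by
  rw [sym_comm, sym_add_left, sym_comm ep y, sym_comm ep y']

theorem sym_smul_left (ep a : ZMod 2) (x y : V1 × V1) : sym ep (a • x) y = a * sym ep x y := by
  unfold sym ee
  simp only [Prod.smul_fst, Prod.smul_snd, smul_eq_mul]
  ring

theorem sym_smul_right (ep a : ZMod 2) (x y : V1 × V1) : sym ep x (a • y) = a * sym ep x y := by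
  rw [sym_comm, sym_smul_left, sym_comm]

theorem sym_unr (ep : ZMod 2) {x y : V1 × V1} (hx : x.1 = 0) (hy : y.1 = 0) : sym ep x y = 0 := by
  unfold sym ee
  rw [hx, hy]
  simp

theorem sym_nondeg (ep : ZMod 2) (x : V1 × V1) (h : ∀ y, sym ep x y = 0) : x = 0 := by
  have h1 := h ((0, 0), (0, 1))
  have h3 := h ((0, 0), (1, 0))
  have h4 := h ((0, 1), (0, 0))
  have h5 := h ((1, 0), (0, 0))
  obtain ⟨⟨a, b⟩, c, d⟩ := x
  unfold sym ee at h1 h3 h4 h5
  have ha : a = 0 := by linear_combination h1
  have hb : b = 0 := by linear_combination h3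
  subst ha hb
  have hc : c = 0 := by linear_combination h4
  have hd : d = 0 := by linear_combination h5
  subst hc hd
  rfl

section form

variable {ι : Type} [Fintype ι]

/-- the sum of the local symbols -/
noncomputable def frm (ep : ι → ZMod 2) : LinearMap.BilinForm (ZMod 2) (ι → V1 × V1) :=
  LinearMap.mk₂ (ZMod 2) (fun x y => ∑ i, sym (ep i) (x i) (y i))
    (fun x x' y => by
      rw [← Finset.sum_add_distrib]
      exact Finset.sum_congr rfl fun i _ => sym_add_left _ _ _ _)
    (fun a x y => by
      rw [smul_eq_mul, Finset.mul_sum]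
      exact Finset.sum_congr rfl fun i _ => sym_smul_left _ _ _ _)
    (fun x y y' => by
      rw [← Finset.sum_add_distrib]
      exact Finset.sum_congr rfl fun i _ => sym_add_right _ _ _ _)
    (fun a x y => by
      rw [smul_eq_mul, Finset.mul_sum]
      exact Finset.sum_congr rfl fun i _ => sym_smul_right _ _ _ _)

theorem frm_apply (ep : ι → ZMod 2) (x y : ι → V1 × V1) :
    frm ep x y = ∑ i, sym (ep i) (x i) (y i) := rfl

theorem frm_symm (ep : ι → ZMod 2) : (frm ep).IsSymm := by
  constructor
  intro x y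
  rw [frm_apply, frm_apply]
  exact Finset.sum_congr rfl fun i _ => sym_comm _ _ _

theorem frm_nondeg (ep : ι → ZMod 2) : (frm ep).Nondegenerate := by
  classical
  have h1 : ∀ x : ι → V1 × V1, (∀ y, frm ep x y = 0) → x = 0 := by
    intro x hx
    funext i
    refine sym_nondeg (ep i) (x i) fun y => ?_
    have h3 := hx (Pi.single i y)
    rw [frm_apply, Finset.sum_eq_single i] at h3
    · rwa [Pi.single_eq_same] at h3
    · intro j _ hj
      rw [Pi.single_eq_of_ne hj]
      unfold sym ee
      simp
    · intro h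
      exact absurd (Finset.mem_univ i) h
  refine ⟨h1, fun y hy => h1 y fun x => ?_⟩
  rw [(frm_symm ep).eq y x]
  exact hy x

end form

variable {k : Type} [Field k] {Ω : Type} [Field Ω] [Algebra (RatFunc k) Ω]
  {sg ph : Place k (RatFunc k) → (Ω ≃ₐ[RatFunc k] Ω)}

theorem HomG.sum {K Ω : Type} [Field K] [Field Ω] [Algebra K Ω] {A ι : Type} [AddCommGroup A]
    (S : Finset ι) {c : ι → (Ω ≃ₐ[K] Ω) → A} (h : ∀ i ∈ S, HomG (c i)) :
    HomG (fun s => ∑ i ∈ S, c i s) := by
  classical
  induction S using Finset.induction_on with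
  | empty => simpa using HomG.zero
  | insert a S ha ih =>
    have h1 : (fun s => ∑ i ∈ insert a S, c i s) = fun s => c a s + ∑ i ∈ S, c i s := by
      funext s
      exact Finset.sum_insert ha
    rw [h1]
    exact (h a (Finset.mem_insert_self a S)).add
      (ih fun i hi => h i (Finset.mem_insert_of_mem hi))

/-- generators of the `S`-units modulo squares: a prime for every finite place, a non-square
constant for infinity -/
private theorem Dual_gen [IsSepClosure (RatFunc k) Ω] [Finite k] (H : LocVals sg ph)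
    (h2 : (2 : k) ≠ 0) (v : Place k (RatFunc k)) : ∃ f : RatFunc k, f ≠ 0 ∧
      (v ≠ placeInfty k → chi (RatFunc k) f (sg v) = 1) ∧
      (∀ w, w ≠ v → w ≠ placeInfty k → chi (RatFunc k) f (sg w) = 0) ∧
      (v = placeInfty k → (∀ w, chi (RatFunc k) f (sg w) = 0) ∧
        chi (RatFunc k) f (ph (placeInfty k)) = 1) := by
  rcases place_cases v with rfl | ⟨P, hP, hm, rfl⟩
  · have hch : ringChar k ≠ 2 := by
      intro h
      apply h2
      have := CharP.cast_eq_zero k (ringChar k)
      rw [h] at this
      exact_mod_cast this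
    obtain ⟨u, hu⟩ := FiniteField.exists_nonsquare hch
    have hu0 : u ≠ 0 := by
      rintro rfl
      exact hu ⟨0, by simp⟩
    refine ⟨algebraMap k (RatFunc k) u, by simpa using hu0, fun h => absurd rfl h,
      fun w _ _ => H.sg_const w hu0, fun _ => ⟨fun w => H.sg_const w hu0, ?_⟩⟩
    rw [H.ph_const_infty hu0]
    exact zmod2_ne_zero fun h => hu ((sq2_eq_zero u).1 h)
  · refine ⟨algebraMap k[X] (RatFunc k) P, by simpa using hP.ne_zero, fun _ => H.sg_self hP, ?_,
      fun h => absurd h (placeInfty_ne hP).symm⟩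
    intro w hw hwi
    rcases place_cases w with rfl | ⟨Q, hQ, hmQ, rfl⟩
    · exact absurd rfl hwi
    · refine H.sg_of_not_dvd hQ (not_dvd_of_ne hQ hmQ hP hm ?_)
      rintro rfl
      exact hw rfl

theorem cw_add (f : RatFunc k) (w w' : V1) (s : Ω ≃ₐ[RatFunc k] Ω) :
    cw f (w + w') s = cw f w s + cw f w' s := by
  unfold cw
  refine Prod.ext ?_ ?_
  · simp only [Prod.fst_add]
    ring
  · simp only [Prod.snd_add]
    ring

theorem cw_smul (f : RatFunc k) (a : ZMod 2) (w : V1) (s : Ω ≃ₐ[RatFunc k] Ω) :
    cw f (a • w) s = a • cw f w s := by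
  unfold cw
  refine Prod.ext ?_ ?_
  · simp only [Prod.smul_fst, smul_eq_mul]
    ring
  · simp only [Prod.smul_snd, smul_eq_mul]
    ring

/-- the global homomorphism with the code `b` -/
private noncomputable def Dual_G {ι : Type} [Fintype ι] (g : ι → RatFunc k) (b : ι → V1)
    (s : Ω ≃ₐ[RatFunc k] Ω) : V1 := ∑ i, cw (g i) (b i) s

/-- the local values -/
private noncomputable def Dual_loc (sg ph : Place k (RatFunc k) → (Ω ≃ₐ[RatFunc k] Ω))
    {ι : Type} [Fintype ι] (g : ι → RatFunc k) (pl : ι → Place k (RatFunc k)) :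
    (ι → V1) →ₗ[ZMod 2] (ι → V1 × V1) where
  toFun b i := (Dual_G g b (sg (pl i)), Dual_G g b (ph (pl i)))
  map_add' b b' := by
    funext i
    unfold Dual_G
    refine Prod.ext ?_ ?_
    · change _ = _ + _
      rw [← Finset.sum_add_distrib]
      exact Finset.sum_congr rfl fun j _ => cw_add _ _ _ _
    · change _ = _ + _
      rw [← Finset.sum_add_distrib]
      exact Finset.sum_congr rfl fun j _ => cw_add _ _ _ _
  map_smul' a b := by
    funext i
    unfold Dual_G
    refine Prod.ext ?_ ?_
    · change _ = a • _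
      rw [Finset.smul_sum]
      exact Finset.sum_congr rfl fun j _ => cw_smul _ _ _ _
    · change _ = a • _
      rw [Finset.smul_sum]
      exact Finset.sum_congr rfl fun j _ => cw_smul _ _ _ _

/-- **Duality** (F4). -/
theorem LocVals.dual [IsSepClosure (RatFunc k) Ω] [Finite k] (H : LocVals sg ph)
    (h2 : (2 : k) ≠ 0) (W : Place k (RatFunc k) → AddSubgroup (V1 × V1))
    (hcard : ∀ v, Nat.card (W v) = 4)
    (hiso : ∀ v, ∀ x ∈ W v, ∀ y ∈ W v, sym (eps v) x y = 0)
    (hur : {v | ¬ ∀ x : V1 × V1, x ∈ W v ↔ x.1 = 0}.Finite)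
    (xi : Place k (RatFunc k) → V1 × V1) (hxi : {v | xi v ∉ W v}.Finite)
    (horth : ∀ b : (Ω ≃ₐ[RatFunc k] Ω) → V1, HomG b → (∀ v, (b (sg v), b (ph v)) ∈ W v) →
      ∑ᶠ v, sym (eps v) (xi v) (b (sg v), b (ph v)) = 0) :
    ∃ om : (Ω ≃ₐ[RatFunc k] Ω) → V1, HomG om ∧
      ∀ v, (om (sg v), om (ph v)) - xi v ∈ W v := by
  classical
  -- the finite set of places
  let T : Finset (Place k (RatFunc k)) := insert (placeInfty k) (hur.toFinset ∪ hxi.toFinset)
  have hTi : placeInfty k ∈ T := Finset.mem_insert_self _ _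
  have hTu : ∀ v, v ∉ T → ∀ x : V1 × V1, x ∈ W v ↔ x.1 = 0 := by
    intro v hv
    by_contra h
    apply hv
    exact Finset.mem_insert_of_mem (Finset.mem_union_left _ (hur.mem_toFinset.2 h))
  have hTx : ∀ v, v ∉ T → xi v ∈ W v := by
    intro v hv
    by_contra h
    apply hv
    exact Finset.mem_insert_of_mem (Finset.mem_union_right _ (hxi.mem_toFinset.2 h))
  have hgen := Dual_gen H h2
  choose g hg0 hg1 hg2 hg3 using hgen
  let ι := {v // v ∈ T}
  let pl : ι → Place k (RatFunc k) := fun i => i.1
  let gi : ι → RatFunc k := fun i => g i.1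
  -- the global homomorphisms
  have hG : ∀ b : ι → V1, HomG (fun s : Ω ≃ₐ[RatFunc k] Ω => Dual_G gi b s) := fun b =>
    HomG.sum Finset.univ fun i _ => cw_homG h2 (hg0 i.1) (b i)
  have hGout : ∀ (b : ι → V1) (v), v ∉ T → Dual_G gi b (sg v) = 0 := by
    intro b v hv
    refine Finset.sum_eq_zero fun i _ => cw_zero ?_
    refine hg2 i.1 v ?_ ?_
    · rintro rfl
      exact hv i.2
    · rintro rfl
      exact hv hTi
  have hGin : ∀ (b : ι → V1) (i : ι), i.1 ≠ placeInfty k → Dual_G gi b (sg i.1) = b i := by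
    intro b i hi
    unfold Dual_G
    rw [Finset.sum_eq_single i]
    · exact cw_one (hg1 i.1 hi)
    · intro j _ hj
      refine cw_zero (hg2 j.1 i.1 ?_ hi)
      intro h
      exact hj (Subtype.ext h.symm)
    · intro h
      exact absurd (Finset.mem_univ i) h
  let Λ := Dual_loc sg ph gi pl
  have hΛ : ∀ (b : ι → V1) (i : ι), Λ b i = (Dual_G gi b (sg i.1), Dual_G gi b (ph i.1)) :=
    fun _ _ => rfl
  -- injectivity
  have hinj : Function.Injective Λ := by
    rw [injective_iff_map_eq_zero]
    intro b hb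
    have h1 : ∀ i : ι, i.1 ≠ placeInfty k → b i = 0 := by
      intro i hi
      rw [← hGin b i hi]
      have := congrFun hb i
      rw [hΛ] at this
      exact congrArg Prod.fst this
    funext i
    by_cases hi : i.1 = placeInfty k
    · have h3 := congrFun hb i
      rw [hΛ] at h3
      have h4 : Dual_G gi b (ph i.1) = 0 := congrArg Prod.snd h3
      unfold Dual_G at h4
      rw [Finset.sum_eq_single i] at h4
      · have h5 : cw (gi i) (b i) (ph i.1) = b i := by
          refine cw_one ?_
          change chi (RatFunc k) (g i.1) (ph i.1) = 1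
          have h6 := (hg3 i.1 hi).2
          rwa [← hi] at h6
        rw [h5] at h4
        exact h4
      · intro j _ hj
        have hj' : j.1 ≠ placeInfty k := by
          intro h
          exact hj (Subtype.ext (h.trans hi.symm))
        rw [h1 j hj']
        unfold cw
        simp
      · intro h
        exact absurd (Finset.mem_univ i) h
    · exact h1 i hi
  let L : Submodule (ZMod 2) (ι → V1 × V1) := LinearMap.range Λ
  let WT : Submodule (ZMod 2) (ι → V1 × V1) :=
    AddSubgroup.toZModSubmodule 2 (AddSubgroup.pi Set.univ fun i : ι => W i.1)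
  have hWT : ∀ x : ι → V1 × V1, x ∈ WT ↔ ∀ i : ι, x i ∈ W i.1 := by
    intro x
    change x ∈ AddSubgroup.pi Set.univ (fun i : ι => W i.1) ↔ _
    rw [AddSubgroup.mem_pi]
    exact ⟨fun h i => h i (Set.mem_univ i), fun h i _ => h i⟩
  -- a sum over all places is a sum over `T`
  have hsum : ∀ F : Place k (RatFunc k) → ZMod 2, (∀ v, v ∉ T → F v = 0) →
      ∑ᶠ v, F v = ∑ i : ι, F i.1 := by
    intro F hF
    rw [finsum_eq_sum_of_support_subset F (s := T)]
    · exact (Finset.sum_coe_sort T F).symm
    · intro v hv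
      by_contra h
      exact hv (hF v h)
  have hcV : Nat.card (V1 × V1) = 16 := by simp [Nat.card_eq_fintype_card]
  have hcV1 : Nat.card V1 = 4 := by simp [Nat.card_eq_fintype_card]
  have hcU : Nat.card (ι → V1 × V1) = 16 ^ Fintype.card ι := by
    rw [Nat.card_pi, Finset.prod_const, hcV, Finset.card_univ]
  have hcL : Nat.card L = 4 ^ Fintype.card ι := by
    have h1 : Nat.card L = Nat.card (ι → V1) :=
      (Nat.card_congr (LinearEquiv.ofInjective Λ hinj).toEquiv).symm
    rw [h1, Nat.card_pi, Finset.prod_const, hcV1, Finset.card_univ]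
  have hcW : Nat.card WT = 4 ^ Fintype.card ι := by
    have h1 : Nat.card WT = Nat.card (∀ i : ι, W i.1) := by
      refine Nat.card_congr ?_
      exact ((Equiv.refl _).subtypeEquiv fun x => hWT x).trans
        (Equiv.subtypePiEquivPi (p := fun (i : ι) (x : V1 × V1) => x ∈ W i.1))
    rw [h1, Nat.card_pi]
    rw [Finset.prod_congr rfl fun i _ => hcard i.1, Finset.prod_const, Finset.card_univ]
  have h16 : (4 ^ Fintype.card ι) ^ 2 = 16 ^ Fintype.card ι := by
    rw [← pow_mul, mul_comm, pow_mul]
    norm_num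
  obtain ⟨l, ⟨β, rfl⟩, w, hw, hx⟩ := lag (frm fun i : ι => eps i.1) (frm_nondeg _) (frm_symm _) L WT
    (by
      rintro _ ⟨b, rfl⟩ _ ⟨b', rfl⟩
      rw [frm_apply]
      have h1 := H.recip h2 _ _ (hG b) (hG b')
      rw [hsum] at h1
      · exact h1
      · intro v hv
        exact sym_unr _ (hGout b v hv) (hGout b' v hv))
    (by
      intro x hx y hy
      rw [frm_apply]
      exact Finset.sum_eq_zero fun i _ => hiso i.1 _ ((hWT x).1 hx i) _ ((hWT y).1 hy i))
    (by rw [hcL, hcU, h16]) (by rw [hcW, hcU, h16]) (fun i : ι => xi i.1)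
    (by
      rintro _ ⟨b, rfl⟩ hb
      rw [frm_apply]
      have hb' : ∀ v, ((fun s => Dual_G gi b s) (sg v), (fun s => Dual_G gi b s) (ph v)) ∈ W v := by
        intro v
        by_cases hv : v ∈ T
        · exact (hWT _).1 hb ⟨v, hv⟩
        · rw [hTu v hv]
          exact hGout b v hv
      have h1 := horth _ (hG b) hb'
      rw [hsum] at h1
      · exact h1
      · intro v hv
        exact hiso v _ (hTx v hv) _ (hb' v))
  refine ⟨fun s => Dual_G gi β s, hG β, fun v => ?_⟩
  by_cases hv : v ∈ T
  · have h1 := congrFun hx ⟨v, hv⟩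
    have h3 : xi v = (Dual_G gi β (sg v), Dual_G gi β (ph v)) + w ⟨v, hv⟩ := h1
    rw [h3, sub_add_cancel_left]
    exact (W v).neg_mem ((hWT w).1 hw ⟨v, hv⟩)
  · refine (W v).sub_mem ?_ (hTx v hv)
    rw [hTu v hv]
    exact hGout β v hv

end Pool.Agent.SmF
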