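import Pool.Agent.Lib.SmD.Defs
import Pool.Agent.Lib.SmD.NN

/-!
# SMITH over `F_q(t)`, block F: the quadratic characters

Lemmas on the Kummer character `chi K f : (Ω ≃ₐ[K] Ω) → ZMod 2` of `SmD/Defs.lean`, for `Ω` a
separable closure of `K`, `2 ≠ 0`. Functions are `2`-finite if they are constant on the left cosets
of some `N ∈ NN K Ω` (`SmD/NN.lean`): `∀ s, ∀ n ∈ N, F (s * n) = F s`.
-/

set_option autoImplicit false

namespace Pool.Agent.SmF

open Pool.Agent.Lib.SmD Pool.Agent.SmD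

variable {K Ω : Type} [Field K] [Field Ω] [Algebra K Ω]

/-- A function on the Galois group is `2`-finite if it is constant on the left cosets of an open
normal subgroup of `2`-power index. -/
def TF {α : Type} (F : (Ω ≃ₐ[K] Ω) → α) : Prop := ∃ N ∈ NN K Ω, ∀ s, ∀ n ∈ N, F (s * n) = F s

/-- The `2`-finite homomorphisms `G → A`. -/
def HomG {A : Type} [AddCommGroup A] (c : (Ω ≃ₐ[K] Ω) → A) : Prop :=
  TF c ∧ ∀ s t, c (s * t) = c s + c t

theorem TF.comp {α β : Type} {F : (Ω ≃ₐ[K] Ω) → α} (h : TF F) (g : α → β) :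
    TF (fun s => g (F s)) := by
  obtain ⟨N, h1, h2⟩ := h
  exact ⟨N, h1, fun s n hn => congrArg g (h2 s n hn)⟩

theorem TF.prod {α β : Type} {F : (Ω ≃ₐ[K] Ω) → α} {F' : (Ω ≃ₐ[K] Ω) → β} (h : TF F)
    (h' : TF F') : TF (fun s => (F s, F' s)) := by
  obtain ⟨N, h1, h2⟩ := h
  obtain ⟨N', h1', h2'⟩ := h'
  exact ⟨N ⊓ N', inf_mem_NN h1 h1', fun s n hn => Prod.ext (h2 s n hn.1) (h2' s n hn.2)⟩

theorem tf_const {α : Type} (a : α) : TF (fun _ : Ω ≃ₐ[K] Ω => a) :=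
  ⟨⊤, top_mem_NN, fun _ _ _ => rfl⟩

theorem HomG.add {A : Type} [AddCommGroup A] {c d : (Ω ≃ₐ[K] Ω) → A} (hc : HomG c)
    (hd : HomG d) : HomG (fun s => c s + d s) :=
  ⟨(hc.1.prod hd.1).comp fun x => x.1 + x.2, fun s t => by
    change c (s * t) + d (s * t) = c s + d s + (c t + d t)
    rw [hc.2, hd.2]; abel⟩

theorem HomG.zero {A : Type} [AddCommGroup A] : HomG (fun _ : Ω ≃ₐ[K] Ω => (0 : A)) :=
  ⟨tf_const _, fun _ _ => by simp⟩

theorem HomG.fst {A B : Type} [AddCommGroup A] [AddCommGroup B] {c : (Ω ≃ₐ[K] Ω) → A × B}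
    (hc : HomG c) : HomG (fun s => (c s).1) :=
  ⟨hc.1.comp Prod.fst, fun s t => congrArg Prod.fst (hc.2 s t)⟩

theorem HomG.snd {A B : Type} [AddCommGroup A] [AddCommGroup B] {c : (Ω ≃ₐ[K] Ω) → A × B}
    (hc : HomG c) : HomG (fun s => (c s).2) :=
  ⟨hc.1.comp Prod.snd, fun s t => congrArg Prod.snd (hc.2 s t)⟩

theorem HomG.prod {A B : Type} [AddCommGroup A] [AddCommGroup B] {c : (Ω ≃ₐ[K] Ω) → A}
    {d : (Ω ≃ₐ[K] Ω) → B} (hc : HomG c) (hd : HomG d) : HomG (fun s => (c s, d s)) :=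
  ⟨hc.1.prod hd.1, fun s t => Prod.ext (hc.2 s t) (hd.2 s t)⟩

theorem two_ne_zero' (h2 : (2 : K) ≠ 0) : (2 : Ω) ≠ 0 := by
  intro h
  apply h2
  apply (algebraMap K Ω).injective
  rw [map_ofNat, h, map_zero]

theorem exists_sqrt [IsSepClosure K Ω] (h2 : (2 : K) ≠ 0) (f : K) :
    ∃ y : Ω, y ^ 2 = algebraMap K Ω f := by
  have hsc : IsSepClosed Ω := IsSepClosure.sep_closed K
  have : NeZero (2 : Ω) := ⟨two_ne_zero' h2⟩
  obtain ⟨z, hz⟩ := IsSepClosed.exists_eq_mul_self (algebraMap K Ω f)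
  exact ⟨z, by rw [hz, sq]⟩

/-- `chi K f s = 0` iff `s` fixes a (every) square root of `f`. -/
theorem chi_eq_zero_iff_fix {f : K} {y : Ω} (hy : y ^ 2 = algebraMap K Ω f) (s : Ω ≃ₐ[K] Ω) :
    chi K f s = 0 ↔ s y = y := by
  unfold chi
  constructor
  · intro h
    by_contra h1
    rw [if_neg (fun h3 => h1 (h3 y hy))] at h
    exact one_ne_zero h
  · intro h
    rw [if_pos]
    intro r hr
    have h1 : r = y ∨ r = -y := by rw [← sq_eq_sq_iff_eq_or_eq_neg, hr, hy]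
    rcases h1 with rfl | rfl
    · exact h
    · rw [map_neg, h]

/-- `s y = (-1)^(chi K f s) y` for every square root `y` of `f`. -/
theorem chi_spec {f : K} {y : Ω} (hy : y ^ 2 = algebraMap K Ω f) (s : Ω ≃ₐ[K] Ω) :
    s y = (-1) ^ (chi K f s).val * y := by
  have h3 : s y = y ∨ s y = -y := by
    rw [← sq_eq_sq_iff_eq_or_eq_neg, ← map_pow, hy, s.commutes]
  by_cases h : chi K f s = 0
  · rw [h, (chi_eq_zero_iff_fix hy s).1 h]
    simp
  · have h4 : chi K f s = 1 := by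
      have : ∀ a : ZMod 2, a ≠ 0 → a = 1 := by decide
      exact this _ h
    rcases h3 with h3 | h3
    · exact absurd ((chi_eq_zero_iff_fix hy s).2 h3) h
    · rw [h4, h3, ZMod.val_one]
      simp

/-- `chi K f s` is the only exponent. -/
theorem chi_eq_of (h2 : (2 : K) ≠ 0) {f : K} (hf : f ≠ 0) {y : Ω}
    (hy : y ^ 2 = algebraMap K Ω f) (s : Ω ≃ₐ[K] Ω) (a : ZMod 2) (ha : s y = (-1) ^ a.val * y) :
    chi K f s = a := by
  have h1 := chi_spec hy s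
  have hy0 : y ≠ 0 := by
    rintro rfl
    apply hf
    apply (algebraMap K Ω).injective
    rw [← hy, map_zero]
    simp
  have h2' : (2 : Ω) ≠ 0 := two_ne_zero' h2
  rw [h1] at ha
  have h3 := mul_right_cancel₀ hy0 ha
  have h4 : ∀ a b : ZMod 2, ((-1 : Ω) ^ a.val = (-1) ^ b.val) → a = b := by
    intro a b hab
    fin_cases a <;> fin_cases b
    · rfl
    · exfalso
      apply h2'
      change ((-1 : Ω) ^ 0 = (-1) ^ 1) at hab
      linear_combination hab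
    · exfalso
      apply h2'
      change ((-1 : Ω) ^ 1 = (-1) ^ 0) at hab
      linear_combination -hab
    · rfl
  exact h4 _ _ h3

/-- `chi K f s = 1` iff `s` changes the sign of a (every) square root of `f`. -/
theorem chi_eq_one_iff_neg (h2 : (2 : K) ≠ 0) {f : K} (hf : f ≠ 0) {y : Ω}
    (hy : y ^ 2 = algebraMap K Ω f) (s : Ω ≃ₐ[K] Ω) : chi K f s = 1 ↔ s y = -y := by
  constructor
  · intro h
    rw [chi_spec hy s, h, ZMod.val_one]
    simp
  · intro h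
    apply chi_eq_of h2 hf hy
    rw [ZMod.val_one]
    simpa using h

theorem chi_mul [IsSepClosure K Ω] (h2 : (2 : K) ≠ 0) {f : K} (hf : f ≠ 0) (s t : Ω ≃ₐ[K] Ω) :
    chi K f (s * t) = chi K f s + chi K f t := by
  obtain ⟨y, hy⟩ := exists_sqrt (Ω := Ω) h2 f
  apply chi_eq_of h2 hf hy
  rw [AlgEquiv.mul_apply, chi_spec hy t, map_mul, chi_spec hy s, map_pow, map_neg, map_one,
    ← mul_assoc, ← pow_add, ZMod.val_add, ← neg_one_pow_eq_pow_mod_two, add_comm]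

theorem chi_one (s : Ω ≃ₐ[K] Ω) : chi K (1 : K) s = 0 := by
  rw [chi_eq_zero_iff_fix (y := 1) (by simp)]
  simp

/-- `chi` is multiplicative in `f`. -/
theorem chi_mul_elt [IsSepClosure K Ω] (h2 : (2 : K) ≠ 0) {f g : K} (hf : f ≠ 0) (hg : g ≠ 0)
    (s : Ω ≃ₐ[K] Ω) : chi K (f * g) s = chi K f s + chi K g s := by
  obtain ⟨y, hy⟩ := exists_sqrt (Ω := Ω) h2 f
  obtain ⟨z, hz⟩ := exists_sqrt (Ω := Ω) h2 g
  apply chi_eq_of (y := y * z) h2 (mul_ne_zero hf hg)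
    (by rw [mul_pow, hy, hz, map_mul])
  rw [map_mul, chi_spec hy s, chi_spec hz s, ZMod.val_add, ← neg_one_pow_eq_pow_mod_two,
    pow_add]
  ring

theorem chi_sq [IsSepClosure K Ω] (h2 : (2 : K) ≠ 0) {f : K} (hf : f ≠ 0) (s : Ω ≃ₐ[K] Ω) :
    chi K (f ^ 2) s = 0 := by
  rw [sq, chi_mul_elt h2 hf hf]
  exact CharTwo.add_self_eq_zero _

theorem chi_inv [IsSepClosure K Ω] (h2 : (2 : K) ≠ 0) {f : K} (hf : f ≠ 0) (s : Ω ≃ₐ[K] Ω) :
    chi K f⁻¹ s = chi K f s := by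
  have h := chi_mul_elt h2 hf (inv_ne_zero hf) s
  rw [mul_inv_cancel₀ hf, chi_one] at h
  have h3 : chi K f s + chi K f s = 0 := CharTwo.add_self_eq_zero _
  linear_combination -h - h3

theorem chi_pow [IsSepClosure K Ω] (h2 : (2 : K) ≠ 0) {f : K} (hf : f ≠ 0) (n : ℕ)
    (s : Ω ≃ₐ[K] Ω) : chi K (f ^ n) s = n * chi K f s := by
  induction n with
  | zero => simp [chi_one]
  | succ n ih =>
    rw [pow_succ, chi_mul_elt h2 (pow_ne_zero _ hf) hf, ih]
    push_cast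
    ring

theorem chi_zpow [IsSepClosure K Ω] (h2 : (2 : K) ≠ 0) {f : K} (hf : f ≠ 0) (n : ℤ)
    (s : Ω ≃ₐ[K] Ω) : chi K (f ^ n) s = n * chi K f s := by
  obtain ⟨m, rfl | rfl⟩ := n.eq_nat_or_neg
  · rw [zpow_natCast, chi_pow h2 hf]
    push_cast
    ring
  · rw [zpow_neg, zpow_natCast, chi_inv h2 (pow_ne_zero _ hf), chi_pow h2 hf]
    push_cast
    have h3 : (m : ZMod 2) * chi K f s + m * chi K f s = 0 := CharTwo.add_self_eq_zero _
    linear_combination h3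

theorem chi_prod [IsSepClosure K Ω] (h2 : (2 : K) ≠ 0) {ι : Type*} (S : Finset ι) (f : ι → K)
    (hf : ∀ i ∈ S, f i ≠ 0) (s : Ω ≃ₐ[K] Ω) :
    chi K (∏ i ∈ S, f i) s = ∑ i ∈ S, chi K (f i) s := by
  classical
  induction S using Finset.induction_on with
  | empty => simp [chi_one]
  | insert a S ha ih =>
    rw [Finset.prod_insert ha, Finset.sum_insert ha,
      chi_mul_elt h2 (hf a (Finset.mem_insert_self a S))
        (Finset.prod_ne_zero_iff.2 fun i hi => hf i (Finset.mem_insert_of_mem hi)),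
      ih fun i hi => hf i (Finset.mem_insert_of_mem hi)]

/-- `chi K f` vanishes iff `f` is a square in `K`. -/
theorem chi_eq_zero_iff [IsSepClosure K Ω] (h2 : (2 : K) ≠ 0) {f : K} (hf : f ≠ 0) :
    (∀ s : Ω ≃ₐ[K] Ω, chi K f s = 0) ↔ IsSquare f := by
  constructor
  · intro h
    obtain ⟨y, hy⟩ := exists_sqrt (Ω := Ω) h2 f
    have h1 : ∀ s : Ω ≃ₐ[K] Ω, s y = y := fun s => (chi_eq_zero_iff_fix hy s).1 (h s)
    have h3 := (InfiniteGalois.mem_bot_iff_fixed (k := K) (K := Ω) y).2 h1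
    obtain ⟨z, hz⟩ := IntermediateField.mem_bot.1 h3
    refine ⟨z, ?_⟩
    apply (algebraMap K Ω).injective
    rw [map_mul, hz, ← sq, hy]
  · rintro ⟨y, rfl⟩ s
    have hy : y ≠ 0 := by rintro rfl; simp at hf
    rw [← sq]
    exact chi_sq h2 hy s

/-- The quadratic characters are `2`-finite homomorphisms. -/
theorem chi_homG [IsSepClosure K Ω] (h2 : (2 : K) ≠ 0) {f : K} (hf : f ≠ 0) :
    HomG (fun s : Ω ≃ₐ[K] Ω => chi K f s) := by
  refine ⟨?_, chi_mul h2 hf⟩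
  obtain ⟨y, hy⟩ := exists_sqrt (Ω := Ω) h2 f
  obtain ⟨N, hN, h⟩ := exists_NN_fix_sqrt y ⟨f, hy⟩
  refine ⟨N, hN, fun s n hn => ?_⟩
  change chi K f (s * n) = chi K f s
  rw [chi_mul h2 hf, (chi_eq_zero_iff_fix hy n).2 (h n hn), add_zero]

end Pool.Agent.SmF
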