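import Pool.Agent.Lib.SmF.QRec

/-!
# SMITH, block F: reciprocity (F2)

`∑_v [chi f, chi g]_v = 0` over all places of `k(t)`, and the same for `2`-finite homomorphisms
`G → V1`.
-/

set_option autoImplicit false

open Polynomial Pool.Agent.BSDFF Pool.Agent.BSDP.R Pool.Agent.Lib.SmD Pool.Agent.Sm

namespace Pool.Agent.SmF

variable {k : Type} [Field k]

/-- Induction over `k(t)ˣ`: constants, monic irreducible polynomials, products, inverses. -/
theorem ratFunc_ind {Q : RatFunc k → Prop}
    (hmul : ∀ f g, f ≠ 0 → g ≠ 0 → Q f → Q g → Q (f * g)) (hinv : ∀ f, f ≠ 0 → Q f → Q f⁻¹)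
    (hc : ∀ c : k, c ≠ 0 → Q (algebraMap k (RatFunc k) c))
    (hP : ∀ P : k[X], P.Monic → Irreducible P → Q (algebraMap k[X] (RatFunc k) P)) :
    ∀ f : RatFunc k, f ≠ 0 → Q f := by
  have hpoly : ∀ g : k[X], g ≠ 0 → Q (algebraMap k[X] (RatFunc k) g) := by
    intro g
    induction g using WfDvdMonoid.induction_on_irreducible with
    | zero => exact fun h => absurd rfl h
    | unit u hu =>
      intro _
      obtain ⟨c, hc1, rfl⟩ := Polynomial.isUnit_iff.1 hu
      rw [polyC]
      exact hc c hc1.ne_zero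
    | mul a i ha hi ih =>
      intro _
      have hl : i.leadingCoeff ≠ 0 := leadingCoeff_ne_zero.2 hi.ne_zero
      have h1 : i = C i.leadingCoeff * (C i.leadingCoeff⁻¹ * i) := by
        rw [← mul_assoc, ← C_mul, mul_inv_cancel₀ hl, C_1, one_mul]
      have hm : (C i.leadingCoeff⁻¹ * i).Monic := by
        rw [mul_comm]
        exact monic_mul_leadingCoeff_inv hi.ne_zero
      have hirr : Irreducible (C i.leadingCoeff⁻¹ * i) :=
        (irreducible_isUnit_mul (isUnit_C.2 (inv_ne_zero hl).isUnit)).2 hi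
      have hi0 : algebraMap k[X] (RatFunc k) i ≠ 0 := by simpa using hi.ne_zero
      have ha0 : algebraMap k[X] (RatFunc k) a ≠ 0 := by simpa using ha
      rw [map_mul]
      refine hmul _ _ hi0 ha0 ?_ (ih ha)
      rw [h1, map_mul, polyC]
      refine hmul _ _ ?_ ?_ (hc _ hl) (hP _ hm hirr)
      · simpa using hl
      · simpa using hirr.ne_zero
  intro f hf
  have h1 := RatFunc.num_div_denom f
  have hn : algebraMap k[X] (RatFunc k) f.num ≠ 0 := by
    simpa using RatFunc.num_ne_zero hf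
  have hd : algebraMap k[X] (RatFunc k) f.denom ≠ 0 := by
    simpa using RatFunc.denom_ne_zero f
  rw [← h1, div_eq_mul_inv]
  exact hmul _ _ hn (inv_ne_zero hd) (hpoly _ (RatFunc.num_ne_zero hf))
    (hinv _ hd (hpoly _ (RatFunc.denom_ne_zero f)))

theorem placeInfty_ne {P : k[X]} (hP : Irreducible P) : placeInfty k ≠ placeOf P hP := by
  intro h
  apply X_not_mem_placeInfty (k := k)
  rw [h]
  exact X_mem_placeOf P hP

variable {Ω : Type} [Field Ω] [Algebra (RatFunc k) Ω]
  {sg ph : Place k (RatFunc k) → (Ω ≃ₐ[RatFunc k] Ω)}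

/-- The local symbol of two elements of `k(t)`. -/
noncomputable def sy1 (sg ph : Place k (RatFunc k) → (Ω ≃ₐ[RatFunc k] Ω)) (f g : RatFunc k)
    (v : Place k (RatFunc k)) : ZMod 2 :=
  chi (RatFunc k) f (sg v) * chi (RatFunc k) g (ph v) +
    chi (RatFunc k) f (ph v) * chi (RatFunc k) g (sg v) +
    eps v * (chi (RatFunc k) f (sg v) * chi (RatFunc k) g (sg v))

theorem sy1_comm (f g : RatFunc k) (v : Place k (RatFunc k)) :
    sy1 sg ph f g v = sy1 sg ph g f v := by
  unfold sy1
  ring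

theorem sy1_mul [IsSepClosure (RatFunc k) Ω] (h2 : (2 : k) ≠ 0) {f f' : RatFunc k} (hf : f ≠ 0)
    (hf' : f' ≠ 0) (g : RatFunc k) (v : Place k (RatFunc k)) :
    sy1 sg ph (f * f') g v = sy1 sg ph f g v + sy1 sg ph f' g v := by
  unfold sy1
  rw [chi_mul_elt (two_ratFunc h2) hf hf', chi_mul_elt (two_ratFunc h2) hf hf']
  ring

theorem sy1_inv [IsSepClosure (RatFunc k) Ω] (h2 : (2 : k) ≠ 0) {f : RatFunc k} (hf : f ≠ 0)
    (g : RatFunc k) (v : Place k (RatFunc k)) :
    sy1 sg ph f⁻¹ g v = sy1 sg ph f g v := by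
  unfold sy1
  rw [chi_inv (two_ratFunc h2) hf, chi_inv (two_ratFunc h2) hf]

/-- every `f` is unramified almost everywhere -/
theorem LocVals.fin_ram [IsSepClosure (RatFunc k) Ω] (H : LocVals sg ph) (h2 : (2 : k) ≠ 0)
    {f : RatFunc k} (hf : f ≠ 0) : {v | chi (RatFunc k) f (sg v) ≠ 0}.Finite := by
  refine ratFunc_ind (Q := fun f => {v | chi (RatFunc k) f (sg v) ≠ 0}.Finite) ?_ ?_ ?_ ?_ f hf
  · intro f g hf hg h h'
    refine (h.union h').subset ?_
    intro v hv
    by_contra hcon
    simp only [Set.mem_union, Set.mem_ofPred_eq, not_or, not_not] at hcon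
    apply hv
    rw [chi_mul_elt (two_ratFunc h2) hf hg, hcon.1, hcon.2, add_zero]
  · intro f hf h
    refine h.subset ?_
    intro v hv
    change chi (RatFunc k) f⁻¹ (sg v) ≠ 0 at hv
    rwa [chi_inv (two_ratFunc h2) hf] at hv
  · intro c hc
    refine Set.finite_empty.subset ?_
    intro v hv
    exact hv (H.sg_const v hc)
  · intro P hm hP
    refine (Set.toFinite {placeOf P hP, placeInfty k}).subset ?_
    intro v hv
    rcases place_cases v with rfl | ⟨Q, hQ, hmQ, rfl⟩
    · exact Or.inr rfl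
    · left
      by_contra hcon
      apply hv
      refine H.sg_of_not_dvd hQ (not_dvd_of_ne hQ hmQ hP hm ?_)
      rintro rfl
      exact hcon rfl

theorem LocVals.fin_sy1 [IsSepClosure (RatFunc k) Ω] (H : LocVals sg ph) (h2 : (2 : k) ≠ 0)
    {f g : RatFunc k} (hf : f ≠ 0) (hg : g ≠ 0) :
    (Function.support (sy1 sg ph f g)).Finite := by
  refine ((H.fin_ram h2 hf).union (H.fin_ram h2 hg)).subset ?_
  intro v hv
  by_contra hcon
  simp only [Set.mem_union, Set.mem_ofPred_eq, not_or, not_not] at hcon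
  apply hv
  unfold sy1
  rw [hcon.1, hcon.2]
  ring

private theorem Recip_const_irr [IsSepClosure (RatFunc k) Ω] [Finite k] (H : LocVals sg ph)
    (h2 : (2 : k) ≠ 0) {c : k} (hc : c ≠ 0) {P : k[X]} (hm : P.Monic) (hP : Irreducible P) :
    ∑ᶠ v, sy1 sg ph (algebraMap k (RatFunc k) c) (algebraMap k[X] (RatFunc k) P) v = 0 := by
  classical
  have h1 : Function.support (sy1 sg ph (algebraMap k (RatFunc k) c)
      (algebraMap k[X] (RatFunc k) P)) ⊆
      (({placeOf P hP, placeInfty k} : Finset (Place k (RatFunc k))) : Set _) := by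
    intro v hv
    rw [Finset.coe_insert, Finset.coe_singleton]
    rcases place_cases v with rfl | ⟨Q, hQ, hmQ, rfl⟩
    · exact Or.inr rfl
    · left
      by_contra hcon
      apply hv
      unfold sy1
      rw [H.sg_const _ hc, H.sg_of_not_dvd hQ (not_dvd_of_ne hQ hmQ hP hm ?_)]
      · ring
      · rintro rfl
        exact hcon rfl
  rw [finsum_eq_sum_of_support_subset _ h1, Finset.sum_pair (placeInfty_ne hP).symm]
  unfold sy1
  rw [H.sg_const _ hc, H.sg_const _ hc, H.sg_self hP, H.sg_infty h2 hm, ← polyC,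
    H.ph_leg hP (not_dvd_C hP hc), polyC, H.ph_const_infty hc, leg_const h2 hP hm hc]
  have h3 : (P.natDegree : ZMod 2) * sq2 c + P.natDegree * sq2 c = 0 :=
    CharTwo.add_self_eq_zero _
  linear_combination h3

private theorem Recip_irr_irr [IsSepClosure (RatFunc k) Ω] [Finite k] (H : LocVals sg ph)
    (h2 : (2 : k) ≠ 0) {P Q : k[X]} (hm : P.Monic) (hP : Irreducible P) (hmQ : Q.Monic)
    (hQ : Irreducible Q) :
    ∑ᶠ v, sy1 sg ph (algebraMap k[X] (RatFunc k) P) (algebraMap k[X] (RatFunc k) Q) v = 0 := by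
  classical
  have h10 : (-1 : k) ≠ 0 := neg_ne_zero.2 one_ne_zero
  by_cases hPQ : P = Q
  · subst hPQ
    have h1 : ∀ v, sy1 sg ph (algebraMap k[X] (RatFunc k) P) (algebraMap k[X] (RatFunc k) P) v =
        sy1 sg ph (algebraMap k (RatFunc k) (-1)) (algebraMap k[X] (RatFunc k) P) v := by
      intro v
      unfold sy1
      rw [H.sg_const v h10, map_neg, map_one, H.eps_eq h2 v]
      have h3 : ∀ a b e : ZMod 2, a * b + b * a + e * (a * a) = 0 * b + e * a + e * (0 * a) := by
        decide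
      exact h3 _ _ _
    rw [finsum_congr h1]
    exact Recip_const_irr H h2 h10 hm hP
  · have hne : placeOf P hP ≠ placeOf Q hQ := fun h => hPQ (placeOf_injective hP hQ hm hmQ h)
    have h1 : Function.support (sy1 sg ph (algebraMap k[X] (RatFunc k) P)
        (algebraMap k[X] (RatFunc k) Q)) ⊆
        (({placeOf P hP, placeOf Q hQ, placeInfty k} : Finset (Place k (RatFunc k))) : Set _) := by
      intro v hv
      rw [Finset.coe_insert, Finset.coe_insert, Finset.coe_singleton]
      rcases place_cases v with rfl | ⟨R, hR, hmR, rfl⟩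
      · exact Or.inr (Or.inr rfl)
      · by_contra hcon
        simp only [Set.mem_insert_iff, Set.mem_singleton_iff, not_or] at hcon
        apply hv
        unfold sy1
        rw [H.sg_of_not_dvd hR (not_dvd_of_ne hR hmR hP hm ?_),
          H.sg_of_not_dvd hR (not_dvd_of_ne hR hmR hQ hmQ ?_)]
        · ring
        · rintro rfl
          exact hcon.2.1 rfl
        · rintro rfl
          exact hcon.1 rfl
    rw [finsum_eq_sum_of_support_subset _ h1, Finset.sum_insert, Finset.sum_pair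
      (placeInfty_ne hQ).symm]
    · unfold sy1
      rw [H.sg_self hP, H.sg_self hQ, H.sg_infty h2 hm, H.sg_infty h2 hmQ,
        H.sg_of_not_dvd hP (not_dvd_of_ne hP hm hQ hmQ hPQ),
        H.sg_of_not_dvd hQ (not_dvd_of_ne hQ hmQ hP hm (Ne.symm hPQ)),
        H.ph_leg hP (not_dvd_of_ne hP hm hQ hmQ hPQ),
        H.ph_leg hQ (not_dvd_of_ne hQ hmQ hP hm (Ne.symm hPQ)), H.ph_infty h2 hm,
        H.ph_infty h2 hmQ]
      have h3 := leg_recip h2 hP hm hQ hmQ hPQ
      have h4 : eps (placeInfty k) = sq2 (-1 : k) := by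
        rw [← H.eps_eq h2, ← H.ph_const_infty h10, map_neg, map_one]
      rw [h4]
      have h5 : ∀ a : ZMod 2, a + a = 0 := CharTwo.add_self_eq_zero
      have h6 := h5 (P.natDegree * (Q.natDegree *
        chi (RatFunc k) (RatFunc.X : RatFunc k) (ph (placeInfty k))))
      have h7 := h5 (P.natDegree * Q.natDegree * sq2 (-1 : k))
      linear_combination h3 + h6 + h7
    · rw [Finset.mem_insert, Finset.mem_singleton, not_or]
      exact ⟨hne, (placeInfty_ne hP).symm⟩

/-- F2 for two elements of `k(t)`. -/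
theorem LocVals.recip1 [IsSepClosure (RatFunc k) Ω] [Finite k] (H : LocVals sg ph)
    (h2 : (2 : k) ≠ 0) {f g : RatFunc k} (hf : f ≠ 0) (hg : g ≠ 0) :
    ∑ᶠ v, sy1 sg ph f g v = 0 := by
  have step : ∀ g : RatFunc k, g ≠ 0 →
      (∀ c : k, c ≠ 0 → ∑ᶠ v, sy1 sg ph (algebraMap k (RatFunc k) c) g v = 0) →
      (∀ P : k[X], P.Monic → Irreducible P →
        ∑ᶠ v, sy1 sg ph (algebraMap k[X] (RatFunc k) P) g v = 0) →
      ∀ f : RatFunc k, f ≠ 0 → ∑ᶠ v, sy1 sg ph f g v = 0 := by
    intro g hg hc hP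
    refine ratFunc_ind ?_ ?_ hc hP
    · intro f f' hf hf' h h'
      rw [finsum_congr fun v => sy1_mul h2 hf hf' g v,
        finsum_add_distrib (H.fin_sy1 h2 hf hg) (H.fin_sy1 h2 hf' hg), h, h', add_zero]
    · intro f hf h
      rw [finsum_congr fun v => sy1_inv h2 hf g v, h]
  have hsw : ∀ f g : RatFunc k, ∑ᶠ v, sy1 sg ph f g v = ∑ᶠ v, sy1 sg ph g f v := fun f g =>
    finsum_congr fun v => sy1_comm f g v
  have hcg : ∀ c : k, c ≠ 0 → ∀ g : RatFunc k, g ≠ 0 →
      ∑ᶠ v, sy1 sg ph g (algebraMap k (RatFunc k) c) v = 0 := by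
    intro c hc
    have hc0 : algebraMap k (RatFunc k) c ≠ 0 := by simpa using hc
    refine step _ hc0 ?_ ?_
    · intro c' hc'
      have h1 : ∀ v, sy1 sg ph (algebraMap k (RatFunc k) c') (algebraMap k (RatFunc k) c) v = 0 := by
        intro v
        unfold sy1
        rw [H.sg_const v hc, H.sg_const v hc']
        ring
      rw [finsum_congr h1, finsum_zero]
    · intro P hm hP
      rw [hsw]
      exact Recip_const_irr H h2 hc hm hP
  have hPg : ∀ P : k[X], P.Monic → Irreducible P → ∀ g : RatFunc k, g ≠ 0 →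
      ∑ᶠ v, sy1 sg ph g (algebraMap k[X] (RatFunc k) P) v = 0 := by
    intro P hm hP
    have hP0 : algebraMap k[X] (RatFunc k) P ≠ 0 := by simpa using hP.ne_zero
    exact step _ hP0 (fun c hc => Recip_const_irr H h2 hc hm hP)
      fun Q hmQ hQ => Recip_irr_irr H h2 hmQ hQ hm hP
  refine step g hg ?_ ?_ f hf
  · intro c hc
    rw [hsw]
    exact hcg c hc g hg
  · intro P hm hP
    rw [hsw]
    exact hPg P hm hP g hg

end Pool.Agent.SmF
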