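import Pool.Agent.Lib.SmF.Vals

/-!
# SMITH, block F: quadratic reciprocity in `k[t]`, additive form
-/

set_option autoImplicit false

open Polynomial Pool.Agent.BSDFF Pool.Agent.BSDP.R Pool.Agent.Lib.SmD Pool.Agent.Sm

namespace Pool.Agent.SmF

/-- `(-1)^a` -/
def pm (a : ZMod 2) : ℤ := (-1) ^ a.val

theorem pm_add (a b : ZMod 2) : pm (a + b) = pm a * pm b := by
  revert a b
  decide

theorem pm_inj {a b : ZMod 2} (h : pm a = pm b) : a = b := by
  revert a b
  decide

theorem pm_nat_mul (n : ℕ) (a : ZMod 2) : pm (n * a) = pm a ^ n := by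
  induction n with
  | zero => simp [pm]
  | succ n ih =>
    rw [pow_succ, ← ih, ← pm_add]
    push_cast
    ring_nf

variable {k : Type} [Field k]

theorem sgn_eq_pm {x : k} (hx : x ≠ 0) : sgn x = pm (sq2 x) := by
  unfold sgn sq2
  rw [if_neg hx]
  by_cases h : IsSquare x
  · rw [if_pos h, if_pos h]; rfl
  · rw [if_neg h, if_neg h]; rfl

theorem chiP_eq_pm {P f : k[X]} (h : ¬ P ∣ f) : chiP P f = pm (leg P f) := by
  unfold leg
  have h1 : chiP P f = 1 ∨ chiP P f = -1 := by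
    unfold chiP
    rw [if_neg h]
    by_cases h3 : IsSquare (AdjoinRoot.mk P f)
    · rw [if_pos h3]; exact Or.inl rfl
    · rw [if_neg h3]; exact Or.inr rfl
  rcases h1 with h1 | h1
  · rw [h1, if_neg (by norm_num)]; rfl
  · rw [h1, if_pos rfl]; rfl

theorem primesOf_irr {P : k[X]} (hP : Irreducible P) (hm : P.Monic) : primesOf P = {P} := by
  ext Q
  rw [mem_primesOf hP.ne_zero, Finset.mem_singleton]
  constructor
  · rintro ⟨h1, h2, h3⟩
    exact eq_of_monic_of_associated h1 hm (h2.associated_of_dvd hP h3)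
  · rintro rfl
    exact ⟨hm, hP, dvd_rfl⟩

theorem not_dvd_of_ne {P Q : k[X]} (hP : Irreducible P) (hm : P.Monic) (hQ : Irreducible Q)
    (hmQ : Q.Monic) (h : P ≠ Q) : ¬ P ∣ Q := fun h1 =>
  h (eq_of_monic_of_associated hm hmQ (hP.associated_of_dvd hQ h1))

theorem not_dvd_C {P : k[X]} (hP : Irreducible P) {c : k} (hc : c ≠ 0) : ¬ P ∣ C c := fun h1 =>
  hP.not_isUnit (isUnit_of_dvd_unit h1 (isUnit_C.2 hc.isUnit))

/-- **Quadratic reciprocity** in `k[t]` -/
theorem leg_recip [Finite k] (h2 : (2 : k) ≠ 0) {P Q : k[X]} (hP : Irreducible P) (hm : P.Monic)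
    (hQ : Irreducible Q) (hmQ : Q.Monic) (h : P ≠ Q) :
    leg P Q + leg Q P = P.natDegree * Q.natDegree * sq2 (-1 : k) := by
  have hc : IsCoprime P Q :=
    (hP.coprime_iff_not_dvd).2 (not_dvd_of_ne hP hm hQ hmQ h)
  have h1 := prod_chiP h2 hP.squarefree hQ.squarefree hc
  rw [primesOf_irr hP hm, primesOf_irr hQ hmQ, Finset.prod_singleton, Finset.prod_singleton,
    hm.leadingCoeff, hmQ.leadingCoeff, chiP_eq_pm (not_dvd_of_ne hP hm hQ hmQ h),
    chiP_eq_pm (not_dvd_of_ne hQ hmQ hP hm h.symm), sgn_eq_pm (neg_ne_zero.2 one_ne_zero),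
    ← pm_nat_mul, ← pm_add] at h1
  have h3 : sgn (1 : k) = 1 := by
    rw [sgn_eq_pm one_ne_zero, (sq2_eq_zero (1 : k)).2 ⟨1, by simp⟩]
    rfl
  rw [h3, one_pow, one_pow, mul_one, mul_one] at h1
  have h4 := pm_inj h1
  push_cast at h4
  rw [← h4, add_comm]

/-- constants -/
theorem leg_const [Finite k] (h2 : (2 : k) ≠ 0) {P : k[X]} (hP : Irreducible P) (hm : P.Monic)
    {c : k} (hc : c ≠ 0) : leg P (C c) = P.natDegree * sq2 c := by
  have hu : IsUnit (C c : k[X]) := isUnit_C.2 hc.isUnit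
  have hco : IsCoprime (C c) P := by
    rw [isCoprime_comm]
    exact (hP.coprime_iff_not_dvd).2 (not_dvd_C hP hc)
  have h1 := prod_chiP h2 hu.squarefree hP.squarefree hco
  have h3 : primesOf (C c : k[X]) = ∅ := by
    ext Q
    rw [mem_primesOf hu.ne_zero]
    constructor
    · rintro ⟨-, h4, h5⟩
      exact absurd (isUnit_of_dvd_unit h5 hu) h4.not_isUnit
    · intro h4
      exact absurd h4 (Finset.notMem_empty _)
  rw [h3, primesOf_irr hP hm, Finset.prod_singleton, Finset.prod_empty, mul_one, natDegree_C,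
    zero_mul, pow_zero, pow_zero, one_mul, mul_one, leadingCoeff_C, chiP_eq_pm (not_dvd_C hP hc),
    sgn_eq_pm hc, ← pm_nat_mul] at h1
  exact pm_inj h1

end Pool.Agent.SmF
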