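import Pool.Agent.Lib.SmD.Main
import Pool.Agent.Lib.Sm.G.Sys
import Pool.Agent.Lib.SmF.DualV

/-!
# SMITH, block F: the fields `recip`, `corr`, `dual` for the chosen data

`SmD.sg`, `SmD.ph` satisfy `LocVals`. For every `S : Sys G V (Place k (RatFunc k))` whose `NN`, `sg`,
`phi`, `eps`, `inf` are `SmD.NN`, `SmD.sg`, `SmD.ph`, `SmF.eps`, `placeInfty` the theorems
`S.smf_recip`, `S.smf_corr`, `S.smf_dual`, `S.smf_ram` are the fields of `Sys.Ok` word for word.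
-/

set_option autoImplicit false

open Polynomial Pool.Agent.BSDFF Pool.Agent.BSDP.R Pool.Agent.Lib.SmD Pool.Agent.Sm

namespace Pool.Agent.SmF

variable {k : Type} [Field k] [Finite k]

/-- the chosen `sg`, `ph` have the expected values on the quadratic characters -/
theorem locVals_sg_ph (Ω : Type) [Field Ω] [Algebra (RatFunc k) Ω] [IsSepClosure (RatFunc k) Ω]
    (h2 : (2 : k) ≠ 0) : LocVals (k := k) (sg Ω) (ph Ω) := by
  have : IsSepClosed Ω := IsSepClosure.sep_closed (RatFunc k)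
  exact ⟨fun v f hf h1 h1' => chi_sg_unit h2 v hf h1 h1', fun v π hπ => chi_sg_irr h2 v hπ,
    fun v u hu => chi_ph_iff h2 v hu⟩

end Pool.Agent.SmF

namespace Pool.Agent.Sm.Sys

open Pool.Agent.SmF

variable {k : Type} [Field k] [Finite k] {Ω : Type} [Field Ω] [Algebra (RatFunc k) Ω]
  [IsSepClosure (RatFunc k) Ω] {V : Type*} [AddCommGroup V]
  [DistribMulAction (Ω ≃ₐ[RatFunc k] Ω) V]
  (S : Sys (Ω ≃ₐ[RatFunc k] Ω) V (Place k (RatFunc k)))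

omit [Finite k] [IsSepClosure (RatFunc k) Ω] in
theorem smf_homG (hNN : S.NN = Pool.Agent.SmD.NN (RatFunc k) Ω) {A : Type} [AddCommGroup A]
    (c : (Ω ≃ₐ[RatFunc k] Ω) → A) : S.HomG c ↔ Pool.Agent.SmF.HomG c := by
  unfold HomG TF Pool.Agent.SmF.HomG Pool.Agent.SmF.TF
  rw [hNN]

/-- F2: the field `recip` -/
theorem smf_recip (h2 : (2 : k) ≠ 0) (hNN : S.NN = Pool.Agent.SmD.NN (RatFunc k) Ω)
    (hsg : S.sg = Pool.Agent.Lib.SmD.sg Ω) (hph : S.phi = Pool.Agent.Lib.SmD.ph Ω) (heps : S.eps = Pool.Agent.SmF.eps) :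
    ∀ c d : (Ω ≃ₐ[RatFunc k] Ω) → V1, S.HomG c → S.HomG d →
      ∑ᶠ v, S.sy v (S.loc v c) (S.loc v d) = 0 := by
  intro c d hc hd
  have h := (locVals_sg_ph Ω h2).recip h2 c d ((S.smf_homG hNN c).1 hc) ((S.smf_homG hNN d).1 hd)
  unfold sy loc
  rw [hsg, hph, heps]
  exact h

/-- F3: the field `corr` -/
theorem smf_corr (h2 : (2 : k) ≠ 0) (hNN : S.NN = Pool.Agent.SmD.NN (RatFunc k) Ω)
    (hsg : S.sg = Pool.Agent.Lib.SmD.sg Ω) (hinf : S.inf = placeInfty k) :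
    ∀ w : Place k (RatFunc k) → V1, {v | w v ≠ 0}.Finite →
      ∃ c : (Ω ≃ₐ[RatFunc k] Ω) → V1, S.HomG c ∧ ∀ v, v ≠ S.inf → c (S.sg v) = w v := by
  classical
  intro w hw
  obtain ⟨c, hc, h1, h3⟩ := (locVals_sg_ph Ω h2).corr h2 (hw.toFinset.erase (placeInfty k))
    (Finset.notMem_erase _ _) w
  refine ⟨c, (S.smf_homG hNN c).2 hc, fun v hv => ?_⟩
  rw [hinf] at hv
  rw [hsg]
  by_cases h : v ∈ hw.toFinset.erase (placeInfty k)
  · exact h1 v h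
  · rw [h3 v h hv]
    rw [Finset.mem_erase, hw.mem_toFinset, Set.mem_ofPred_eq] at h
    by_contra h4
    exact h ⟨hv, Ne.symm h4⟩

/-- F4: the field `dual` -/
theorem smf_dual (h2 : (2 : k) ≠ 0) (hNN : S.NN = Pool.Agent.SmD.NN (RatFunc k) Ω)
    (hsg : S.sg = Pool.Agent.Lib.SmD.sg Ω) (hph : S.phi = Pool.Agent.Lib.SmD.ph Ω) (heps : S.eps = Pool.Agent.SmF.eps) :
    ∀ W : Place k (RatFunc k) → AddSubgroup (V1 × V1), (∀ v, Nat.card (W v) = 4) →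
      (∀ v, ∀ x ∈ W v, ∀ y ∈ W v, S.sy v x y = 0) →
      {v | ¬ ∀ x : V1 × V1, x ∈ W v ↔ x.1 = 0}.Finite →
      ∀ xi : Place k (RatFunc k) → V1 × V1, {v | xi v ∉ W v}.Finite →
      (∀ b : (Ω ≃ₐ[RatFunc k] Ω) → V1, S.HomG b → (∀ v, S.loc v b ∈ W v) →
        ∑ᶠ v, S.sy v (xi v) (S.loc v b) = 0) →
      ∃ om : (Ω ≃ₐ[RatFunc k] Ω) → V1, S.HomG om ∧ ∀ v, S.loc v om - xi v ∈ W v := by
  intro W hcard hiso hur xi hxi horth
  unfold sy loc at *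
  rw [hsg, hph, heps] at *
  obtain ⟨om, hom, h⟩ := (locVals_sg_ph Ω h2).dual h2 W hcard hiso hur xi hxi
    (fun b hb => horth b ((S.smf_homG hNN b).2 hb))
  exact ⟨om, (S.smf_homG hNN om).2 hom, h⟩

/-- a `2`-finite homomorphism is unramified at almost all places -/
theorem smf_ram (h2 : (2 : k) ≠ 0) (hNN : S.NN = Pool.Agent.SmD.NN (RatFunc k) Ω)
    (hsg : S.sg = Pool.Agent.Lib.SmD.sg Ω) {c : (Ω ≃ₐ[RatFunc k] Ω) → V1} (hc : S.HomG c) :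
    {v | c (S.sg v) ≠ 0}.Finite := by
  rw [hsg]
  exact (locVals_sg_ph Ω h2).fin_ramV h2 ((S.smf_homG hNN c).1 hc)

end Pool.Agent.Sm.Sys
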