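import Pool.Agent.Lib.SmF.Vals
import Pool.Agent.Lib.SmF.Kummer

/-!
# SMITH over `F_q(t)`, block F: the everywhere unramified quadratic characters

`unr_char`: a `2`-finite homomorphism `G → ZMod 2` which vanishes at all `sg v` is `0` or the character
of a non-square constant. `sg_poly`: the value of the character of a polynomial at `sg ∞`.
-/

set_option autoImplicit false

open Polynomial Pool.Agent.BSDFF Pool.Agent.BSDP.R

namespace Pool.Agent.SmF

open Pool.Agent.Lib.SmD

variable {k : Type} [Field k] {Ω : Type} [Field Ω] [Algebra (RatFunc k) Ω]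
  [IsSepClosure (RatFunc k) Ω] {sg ph : Place k (RatFunc k) → (Ω ≃ₐ[RatFunc k] Ω)}

private theorem UnrC_sq [Finite k] {b u : k} (hb : ¬ IsSquare b) (hu : ¬ IsSquare u)
    (h0 : b * u ≠ 0) : IsSquare (b * u) := by
  classical
  have hF : Fintype k := Fintype.ofFinite k
  have hb' := quadraticChar_neg_one_iff_not_isSquare.2 hb
  have hu' := quadraticChar_neg_one_iff_not_isSquare.2 hu
  rw [← quadraticChar_one_iff_isSquare h0, map_mul, hb', hu']
  norm_num

theorem alg_ne {f : k[X]} (hf : f ≠ 0) : algebraMap k[X] (RatFunc k) f ≠ 0 := by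
  simpa using hf

theorem algC_ne {c : k} (hc : c ≠ 0) : algebraMap k (RatFunc k) c ≠ 0 :=
  fun h => hc ((algebraMap k (RatFunc k)).injective (by rw [h, map_zero]))

/-- Ramification at infinity is the parity of the degree. -/
theorem LocVals.sg_infty' (H : LocVals sg ph) (h2 : (2 : k) ≠ 0) {f : k[X]} (hf : f ≠ 0) :
    chi (RatFunc k) (algebraMap k[X] (RatFunc k) f) (sg (placeInfty k)) = f.natDegree := by
  have hc : f.leadingCoeff ≠ 0 := leadingCoeff_ne_zero.2 hf
  have hm : (f * C f.leadingCoeff⁻¹).Monic := monic_mul_leadingCoeff_inv hf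
  have h1 : f = C f.leadingCoeff * (f * C f.leadingCoeff⁻¹) := by
    rw [mul_comm, mul_assoc, ← C_mul, inv_mul_cancel₀ hc, C_1, mul_one]
  have h3 : (f * C f.leadingCoeff⁻¹).natDegree = f.natDegree :=
    natDegree_mul_C (inv_ne_zero hc)
  have h4 := H.sg_infty h2 hm
  have h5 : algebraMap k[X] (RatFunc k) f = algebraMap k (RatFunc k) f.leadingCoeff *
      algebraMap k[X] (RatFunc k) (f * C f.leadingCoeff⁻¹) := by
    rw [← polyC, ← map_mul, ← h1]
  rw [h5, chi_mul_elt (two_ratFunc h2) (algC_ne hc) (alg_ne hm.ne_zero), H.sg_const _ hc, h4, h3,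
    zero_add]

/-- A polynomial which is unramified at all finite places is a constant up to squares. -/
theorem LocVals.const_of_unr (H : LocVals sg ph) (h2 : (2 : k) ≠ 0) : ∀ (n : ℕ) (g : k[X]), g ≠ 0 →
    g.natDegree ≤ n →
    (∀ (P : k[X]) (hP : Irreducible P),
      chi (RatFunc k) (algebraMap k[X] (RatFunc k) g) (sg (placeOf P hP)) = 0) →
    ∃ c : k, c ≠ 0 ∧ ∀ s : Ω ≃ₐ[RatFunc k] Ω, chi (RatFunc k) (algebraMap k[X] (RatFunc k) g) s =
      chi (RatFunc k) (algebraMap k (RatFunc k) c) s := by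
  intro n
  induction n using Nat.strong_induction_on with
  | _ n ih =>
    intro g hg hn hu
    by_cases hgu : IsUnit g
    · obtain ⟨c, hc, hcg⟩ := Polynomial.isUnit_iff.1 hgu
      refine ⟨c, hc.ne_zero, fun s => ?_⟩
      rw [← hcg, polyC]
    · obtain ⟨P, hP, g1, rfl⟩ := WfDvdMonoid.exists_irreducible_factor hgu hg
      have hP0 := hP.ne_zero
      have hg1 : g1 ≠ 0 := right_ne_zero_of_mul hg
      have h1 := hu P hP
      rw [map_mul, chi_mul_elt (two_ratFunc h2) (alg_ne hP0) (alg_ne hg1), H.sg_self hP] at h1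
      have hd : P ∣ g1 := by
        by_contra hd
        rw [H.sg_of_not_dvd hP hd, add_zero] at h1
        exact one_ne_zero h1
      obtain ⟨g2, rfl⟩ := hd
      have hg2 : g2 ≠ 0 := right_ne_zero_of_mul hg1
      have he : ∀ s : Ω ≃ₐ[RatFunc k] Ω,
          chi (RatFunc k) (algebraMap k[X] (RatFunc k) (P * (P * g2))) s =
          chi (RatFunc k) (algebraMap k[X] (RatFunc k) g2) s := by
        intro s
        rw [← mul_assoc, map_mul, map_mul, chi_mul_elt (two_ratFunc h2)
          (mul_ne_zero (alg_ne hP0) (alg_ne hP0)) (alg_ne hg2), ← sq,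
          chi_sq (two_ratFunc h2) (alg_ne hP0), zero_add]
      have hPd : 0 < P.natDegree := hP.natDegree_pos
      have hdeg : g2.natDegree < n := by
        rw [natDegree_mul hP0 hg1, natDegree_mul hP0 hg2] at hn
        omega
      obtain ⟨c, hc, hcs⟩ := ih _ hdeg g2 hg2 le_rfl fun Q hQ => by rw [← he]; exact hu Q hQ
      exact ⟨c, hc, fun s => (he s).trans (hcs s)⟩

/-- **The everywhere unramified characters are constant.** -/
theorem LocVals.unr_char [Finite k] (H : LocVals sg ph) (h2 : (2 : k) ≠ 0) {u : k}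
    (hu : ¬ IsSquare u) {c : (Ω ≃ₐ[RatFunc k] Ω) → ZMod 2} (hc : HomG c)
    (h0 : ∀ v, c (sg v) = 0) :
    ∃ a : ZMod 2, ∀ s, c s = a * chi (RatFunc k) (algebraMap k (RatFunc k) u) s := by
  have h2K := two_ratFunc h2
  obtain ⟨f, hf, hcf⟩ := kummer h2K hc
  have hd := RatFunc.denom_ne_zero f
  have hn : f.num ≠ 0 := fun h => hf (RatFunc.num_eq_zero_iff.mp h)
  have hg : f.num * f.denom ≠ 0 := mul_ne_zero hn hd
  have e1 : ∀ s, c s = chi (RatFunc k) (algebraMap k[X] (RatFunc k) (f.num * f.denom)) s := by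
    intro s
    rw [hcf, map_mul]
    have h3 : algebraMap k[X] (RatFunc k) f.num * algebraMap k[X] (RatFunc k) f.denom =
        f * (algebraMap k[X] (RatFunc k) f.denom) ^ 2 := by
      have h4 := RatFunc.num_div_denom f
      have h5 := (div_eq_iff (alg_ne hd)).1 h4
      rw [h5]
      ring
    rw [h3, chi_mul_elt h2K hf (pow_ne_zero _ (alg_ne hd)), chi_sq h2K (alg_ne hd), add_zero]
  obtain ⟨b, hb, hbs⟩ := H.const_of_unr h2 _ _ hg le_rfl fun P hP => by
    rw [← e1]
    exact h0 _
  have hu0 : u ≠ 0 := by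
    rintro rfl
    exact hu ⟨0, by ring⟩
  by_cases hb2 : IsSquare b
  · obtain ⟨r, rfl⟩ := hb2
    refine ⟨0, fun s => ?_⟩
    have hr : r ≠ 0 := left_ne_zero_of_mul hb
    rw [e1, hbs, zero_mul, ← sq, map_pow, chi_sq h2K (algC_ne hr)]
  · refine ⟨1, fun s => ?_⟩
    have hub : IsSquare (b * u) := UnrC_sq hb2 hu (mul_ne_zero hb hu0)
    obtain ⟨r, hr⟩ := hub
    have hbu : b * u ≠ 0 := mul_ne_zero hb hu0
    have hr0 : r ≠ 0 := by
      rintro rfl
      exact hbu (by rw [hr, zero_mul])
    have h6 : chi (RatFunc k) (algebraMap k (RatFunc k) b) s +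
        chi (RatFunc k) (algebraMap k (RatFunc k) u) s = 0 := by
      rw [← chi_mul_elt h2K (algC_ne hb) (algC_ne hu0), ← map_mul, hr, ← sq, map_pow,
        chi_sq h2K (algC_ne hr0)]
    rw [e1, hbs, one_mul]
    have h7 : ∀ x y : ZMod 2, x + y = 0 → x = y := by decide
    exact h7 _ _ h6

/-- The character of a non-square constant does not vanish at the Frobenius element at infinity. -/
theorem LocVals.ph_nonsq (H : LocVals sg ph) {u : k} (hu : ¬ IsSquare u) :
    chi (RatFunc k) (algebraMap k (RatFunc k) u) (ph (placeInfty k)) = 1 := by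
  have hu0 : u ≠ 0 := by
    rintro rfl
    exact hu ⟨0, by ring⟩
  rw [H.ph_const_infty hu0, sq2, if_neg hu]

end Pool.Agent.SmF
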