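import Pool.Agent.Lib.Sm.G.Sys

/-!
# SMITH over `F_q(t)`, block F4 and F3: duality and correction (abstract form)

`S : Sys G V Pl`; `gam v : G → ZMod 2` (`v ≠ inf`: the quadratic character of the monic irreducible
at `v`; `v = inf`: the character of a non-square constant). From the values of the `gam` at the
`sg v`, `phi inf` and from the reciprocity law we deduce the fields `corr` and `dual` of `Sys.Ok`.

Proof of `dual`: for a finite set `T` of places containing `inf` the homomorphisms
`a ↦ ∑ v ∈ T, gam v ⊗ a v`, `a : T → V1`, are determined by their values in `∏_T (V1 × V1)`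
(values at `sg v`, `v ≠ inf`, and at `phi inf`), isotropic by reciprocity, so their image `Y` has
`4 ^ |T|` elements and is its own orthogonal. The same holds for `∏ W v`, and
`(Y ∩ W)^⊥ = Y + W`.
-/

set_option autoImplicit false

namespace Pool.Agent.Sm

/-! ### Linear algebra -/

private theorem SmFDual_ee_add_left (x y z : V1) : ee (x + y) z = ee x z + ee y z := by
  simp only [ee, Prod.fst_add, Prod.snd_add]; ring

private theorem SmFDual_ee_add_right (x y z : V1) : ee x (y + z) = ee x y + ee x z := by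
  simp only [ee, Prod.fst_add, Prod.snd_add]; ring

private theorem SmFDual_ee_smul_left (a : ZMod 2) (x z : V1) : ee (a • x) z = a * ee x z := by
  simp only [ee, Prod.smul_fst, Prod.smul_snd, smul_eq_mul]; ring

private theorem SmFDual_ee_smul_right (a : ZMod 2) (x z : V1) : ee x (a • z) = a * ee x z := by
  simp only [ee, Prod.smul_fst, Prod.smul_snd, smul_eq_mul]; ring

private theorem SmFDual_ee_comm (x y : V1) : ee x y = ee y x := by
  simp only [ee]; ring

private theorem SmFDual_ee_nondeg : ∀ x : V1, x ≠ 0 → ∃ y : V1, ee x y = 1 := by decide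

private theorem SmFDual_sym_comm (ep : ZMod 2) (x y : V1 × V1) : sym ep x y = sym ep y x := by
  simp only [sym, SmFDual_ee_comm x.1 y.2, SmFDual_ee_comm x.2 y.1, SmFDual_ee_comm x.1 y.1]
  ring

private theorem SmFDual_sym_add_left (ep : ZMod 2) (x y z : V1 × V1) :
    sym ep (x + y) z = sym ep x z + sym ep y z := by
  simp only [sym, Prod.fst_add, Prod.snd_add, SmFDual_ee_add_left]; ring

private theorem SmFDual_sym_add_right (ep : ZMod 2) (x y z : V1 × V1) :
    sym ep x (y + z) = sym ep x y + sym ep x z := by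
  rw [SmFDual_sym_comm, SmFDual_sym_add_left, SmFDual_sym_comm ep y, SmFDual_sym_comm ep z]

private theorem SmFDual_sym_smul_left (ep a : ZMod 2) (x z : V1 × V1) : sym ep (a • x) z = a * sym ep x z := by
  simp only [sym, Prod.smul_fst, Prod.smul_snd, SmFDual_ee_smul_left]; ring

private theorem SmFDual_sym_smul_right (ep a : ZMod 2) (x z : V1 × V1) : sym ep x (a • z) = a * sym ep x z := by
  rw [SmFDual_sym_comm, SmFDual_sym_smul_left, SmFDual_sym_comm]

private theorem SmFDual_sym_zero_left (ep : ZMod 2) (x : V1 × V1) : sym ep 0 x = 0 := by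
  simp [sym, ee]

private theorem SmFDual_sym_zero_right (ep : ZMod 2) (x : V1 × V1) : sym ep x 0 = 0 := by
  rw [SmFDual_sym_comm, SmFDual_sym_zero_left]

/-- Unramified pairs are orthogonal. -/
private theorem SmFDual_sym_unr (ep : ZMod 2) {x y : V1 × V1} (hx : x.1 = 0) (hy : y.1 = 0) : sym ep x y = 0 := by
  simp [sym, hx, hy, ee]

private theorem SmFDual_sym_nondeg (ep : ZMod 2) (x : V1 × V1) (h : ∀ y, sym ep x y = 0) : x = 0 := by
  have h1 : x.1 = 0 := by
    by_contra h1
    obtain ⟨y, hy⟩ := SmFDual_ee_nondeg _ h1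
    have h2 := h (0, y)
    have h3 : ee x.2 0 = 0 := by simp [ee]
    have h4 : ee x.1 0 = 0 := by simp [ee]
    simp only [sym, hy, h3, h4] at h2
    simp at h2
  have h2 : x.2 = 0 := by
    by_contra h2
    obtain ⟨y, hy⟩ := SmFDual_ee_nondeg _ h2
    have h3 := h (y, 0)
    have h4 : ee x.1 0 = 0 := by simp [ee]
    have h5 : ee x.1 y = 0 := by simp [ee, h1]
    simp only [sym, hy, h4, h5] at h3
    simp at h3
  exact Prod.ext h1 h2

/-- The form on `∏_T (V1 × V1)`. -/
private noncomputable def SmFDual_B {T : Type*} [Fintype T] (ep : T → ZMod 2) :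
    LinearMap.BilinForm (ZMod 2) (T → V1 × V1) :=
  LinearMap.mk₂ (ZMod 2) (fun x y => ∑ v, sym (ep v) (x v) (y v))
    (fun x y z => by
      simp only [Pi.add_apply, SmFDual_sym_add_left, Finset.sum_add_distrib])
    (fun a x z => by
      simp only [Pi.smul_apply, SmFDual_sym_smul_left, smul_eq_mul, Finset.mul_sum])
    (fun x y z => by
      simp only [Pi.add_apply, SmFDual_sym_add_right, Finset.sum_add_distrib])
    (fun a x z => by
      simp only [Pi.smul_apply, SmFDual_sym_smul_right, smul_eq_mul, Finset.mul_sum])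

private theorem SmFDual_B_apply {T : Type*} [Fintype T] (ep : T → ZMod 2) (x y : T → V1 × V1) :
    SmFDual_B ep x y = ∑ v, sym (ep v) (x v) (y v) := rfl

private theorem SmFDual_B_refl {T : Type*} [Fintype T] (ep : T → ZMod 2) : (SmFDual_B ep).IsRefl := by
  intro x y h
  rw [SmFDual_B_apply] at h ⊢
  rw [← h]
  exact Finset.sum_congr rfl fun v _ => SmFDual_sym_comm _ _ _

private theorem SmFDual_B_nondeg {T : Type*} [Fintype T] (ep : T → ZMod 2) :
    (SmFDual_B ep).Nondegenerate := by
  classical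
  refine (LinearMap.IsRefl.nondegenerate_iff_separatingLeft (SmFDual_B_refl ep)).2 ?_
  intro x hx
  funext v
  apply SmFDual_sym_nondeg (ep v)
  intro y
  have h := hx (Pi.single v y)
  rw [SmFDual_B_apply, Finset.sum_eq_single v] at h
  · rwa [Pi.single_eq_same] at h
  · intro w _ hw
    rw [Pi.single_eq_of_ne hw, SmFDual_sym_zero_right]
  · intro h1
    exact absurd (Finset.mem_univ v) h1

private theorem SmFDual_finrank (T : Type*) [Fintype T] :
    Module.finrank (ZMod 2) (T → V1 × V1) = 4 * Fintype.card T := by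
  rw [Module.finrank_pi_fintype]
  simp [Module.finrank_prod, mul_comm]

private theorem SmFDual_finrank_of_card {M : Type*} [AddCommGroup M] [Module (ZMod 2) M] [Finite M]
    {n : ℕ} (h : Nat.card M = 4 ^ n) : Module.finrank (ZMod 2) M = 2 * n := by
  have : Fintype M := Fintype.ofFinite M
  have h1 : Fintype.card M = Fintype.card (ZMod 2) ^ Module.finrank (ZMod 2) M :=
    Module.card_eq_pow_finrank
  rw [← Nat.card_eq_fintype_card, h, ZMod.card, show 4 = 2 ^ 2 from rfl, ← pow_mul] at h1
  exact (Nat.pow_right_injective le_rfl h1).symm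

/-- Orthogonality of two maximal isotropic subspaces. -/
private theorem SmFDual_lin {T : Type*} [Fintype T] (ep : T → ZMod 2)
    (Y W : Submodule (ZMod 2) (T → V1 × V1)) (hY : Nat.card Y = 4 ^ Fintype.card T)
    (hW : Nat.card W = 4 ^ Fintype.card T)
    (hY' : ∀ x ∈ Y, ∀ y ∈ Y, SmFDual_B ep x y = 0) (hW' : ∀ x ∈ W, ∀ y ∈ W, SmFDual_B ep x y = 0)
    (x : T → V1 × V1) (hx : ∀ y ∈ Y, y ∈ W → SmFDual_B ep x y = 0) :
    ∃ y ∈ Y, x - y ∈ W := by
  have key : ∀ Z : Submodule (ZMod 2) (T → V1 × V1), Nat.card Z = 4 ^ Fintype.card T →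
      (∀ x ∈ Z, ∀ y ∈ Z, SmFDual_B ep x y = 0) → (SmFDual_B ep).orthogonal Z = Z := by
    intro Z hZ hZ'
    symm
    apply Submodule.eq_of_le_of_finrank_le
    · intro y hy
      rw [LinearMap.BilinForm.mem_orthogonal_iff]
      intro z hz
      exact hZ' z hz y hy
    · rw [LinearMap.BilinForm.finrank_orthogonal (SmFDual_B_nondeg ep), SmFDual_finrank,
        SmFDual_finrank_of_card hZ]
      omega
  have h1 : (SmFDual_B ep).orthogonal (Y ⊔ W) ≤ Y ⊓ W := by
    refine le_inf ?_ ?_
    · exact (LinearMap.BilinForm.orthogonal_le le_sup_left).trans (key Y hY hY').le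
    · exact (LinearMap.BilinForm.orthogonal_le le_sup_right).trans (key W hW hW').le
  have h2 : x ∈ (SmFDual_B ep).orthogonal ((SmFDual_B ep).orthogonal (Y ⊔ W)) := by
    rw [LinearMap.BilinForm.mem_orthogonal_iff]
    intro y hy
    have h3 := h1 hy
    exact (SmFDual_B_refl ep) x y (hx y h3.1 h3.2)
  rw [LinearMap.BilinForm.orthogonal_orthogonal (SmFDual_B_nondeg ep) (SmFDual_B_refl ep)] at h2
  obtain ⟨y, hy, w, hw, h⟩ := Submodule.mem_sup.1 h2
  exact ⟨y, hy, by rw [← h, add_sub_cancel_left]; exact hw⟩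

/-! ### Sums of homomorphisms -/

section

variable {G V Pl : Type*} [Group G] [AddCommGroup V] [DistribMulAction G V]

namespace Sys

variable (S : Sys G V Pl)

private theorem SmFDual_homG_sum (top_mem : ⊤ ∈ S.NN) (inf_mem : ∀ N ∈ S.NN, ∀ N' ∈ S.NN, N ⊓ N' ∈ S.NN)
    (gam : Pl → G → ZMod 2) (hgam : ∀ v, S.HomG (gam v)) (T : Finset Pl) (a : Pl → V1) :
    S.HomG (fun s => ∑ v ∈ T, gam v s • a v) := by
  classical
  constructor
  · induction T using Finset.induction_on with
    | empty => exact ⟨⊤, top_mem, fun s n _ => by simp⟩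
    | insert v T hv ih =>
      obtain ⟨N, hN, h1⟩ := ih
      obtain ⟨N', hN', h2⟩ := (hgam v).1
      refine ⟨N ⊓ N', inf_mem _ hN _ hN', fun s n hn => ?_⟩
      have h3 := h1 s n hn.1
      have h4 := h2 s n hn.2
      simp only [Finset.sum_insert hv] at h3 ⊢
      rw [h3, h4]
  · intro s t
    rw [← Finset.sum_add_distrib]
    exact Finset.sum_congr rfl fun v _ => by rw [(hgam v).2, add_smul]

/-- Block F3: the field `corr` of `Sys.Ok`. -/
theorem corr_of (top_mem : ⊤ ∈ S.NN) (inf_mem : ∀ N ∈ S.NN, ∀ N' ∈ S.NN, N ⊓ N' ∈ S.NN)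
    (gam : Pl → G → ZMod 2) (hgam : ∀ v, S.HomG (gam v))
    (h1 : ∀ v, v ≠ S.inf → gam v (S.sg v) = 1)
    (h2 : ∀ v w, v ≠ w → w ≠ S.inf → gam v (S.sg w) = 0) (w : Pl → V1)
    (hw : {v | w v ≠ 0}.Finite) :
    ∃ c : G → V1, S.HomG c ∧ ∀ v, v ≠ S.inf → c (S.sg v) = w v := by
  classical
  refine ⟨fun s => ∑ v ∈ hw.toFinset, gam v s • w v,
    S.SmFDual_homG_sum top_mem inf_mem gam hgam _ _, fun v hv => ?_⟩
  change ∑ u ∈ hw.toFinset, gam u (S.sg v) • w u = w v
  by_cases h0 : w v = 0
  · rw [h0]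
    refine Finset.sum_eq_zero fun u hu => ?_
    by_cases huv : u = v
    · rw [huv, h0, smul_zero]
    · rw [h2 u v huv hv, zero_smul]
  · rw [Finset.sum_eq_single v]
    · rw [h1 v hv, one_smul]
    · intro u _ huv
      rw [h2 u v huv hv, zero_smul]
    · intro h
      exact absurd (hw.mem_toFinset.2 h0) h

/-- Block F4: the field `dual` of `Sys.Ok`. -/
theorem dual_of (top_mem : ⊤ ∈ S.NN) (inf_mem : ∀ N ∈ S.NN, ∀ N' ∈ S.NN, N ⊓ N' ∈ S.NN)
    (gam : Pl → G → ZMod 2) (hgam : ∀ v, S.HomG (gam v))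
    (h1 : ∀ v, v ≠ S.inf → gam v (S.sg v) = 1)
    (h2 : ∀ v w, v ≠ w → w ≠ S.inf → gam v (S.sg w) = 0)
    (h3 : gam S.inf (S.phi S.inf) = 1)
    (recip : ∀ c d : G → V1, S.HomG c → S.HomG d →
      ∑ᶠ v, S.sy v (S.loc v c) (S.loc v d) = 0)
    (W : Pl → AddSubgroup (V1 × V1)) (hcard : ∀ v, Nat.card (W v) = 4)
    (hiso : ∀ v, ∀ x ∈ W v, ∀ y ∈ W v, S.sy v x y = 0)
    (hunr : {v | ¬ ∀ x : V1 × V1, x ∈ W v ↔ x.1 = 0}.Finite)
    (xi : Pl → V1 × V1) (hxi : {v | xi v ∉ W v}.Finite)
    (horth : ∀ b : G → V1, S.HomG b → (∀ v, S.loc v b ∈ W v) →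
      ∑ᶠ v, S.sy v (xi v) (S.loc v b) = 0) :
    ∃ om : G → V1, S.HomG om ∧ ∀ v, S.loc v om - xi v ∈ W v := by
  classical
  obtain ⟨T, hTinf, hTunr, hTxi⟩ : ∃ T : Finset Pl, S.inf ∈ T ∧
      (∀ v, v ∉ T → ∀ x : V1 × V1, x ∈ W v ↔ x.1 = 0) ∧ ∀ v, v ∉ T → xi v ∈ W v := by
    refine ⟨insert S.inf (hunr.toFinset ∪ hxi.toFinset), Finset.mem_insert_self _ _,
      fun v hv => ?_, fun v hv => ?_⟩
    · by_contra h
      exact hv (Finset.mem_insert_of_mem (Finset.mem_union_left _ (hunr.mem_toFinset.2 h)))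
    · by_contra h
      exact hv (Finset.mem_insert_of_mem (Finset.mem_union_right _ (hxi.mem_toFinset.2 h)))
  -- the homomorphism attached to `a`
  set cc : (T → V1) → G → V1 := fun a s => ∑ w : T, gam w s • a w with hcc
  have hccH : ∀ a, S.HomG (cc a) := by
    intro a
    have h := S.SmFDual_homG_sum top_mem inf_mem gam hgam T
      (fun v => if hv : v ∈ T then a ⟨v, hv⟩ else 0)
    have h4 : (fun s => ∑ v ∈ T, gam v s • (if hv : v ∈ T then a ⟨v, hv⟩ else 0)) = cc a := by
      funext s
      rw [← Finset.sum_coe_sort T]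
      exact Finset.sum_congr rfl fun v _ => by rw [dif_pos v.2]
    rwa [h4] at h
  have hsgT : ∀ a (v : T), (v : Pl) ≠ S.inf → cc a (S.sg v) = a v := by
    intro a v hv
    change ∑ w : T, gam w (S.sg v) • a w = a v
    rw [Finset.sum_eq_single v]
    · rw [h1 v hv, one_smul]
    · intro w _ hwv
      rw [h2 w v (fun h => hwv (Subtype.ext h)) hv, zero_smul]
    · intro h
      exact absurd (Finset.mem_univ v) h
  have hsgT' : ∀ a v, v ∉ T → cc a (S.sg v) = 0 := by
    intro a v hv
    change ∑ w : T, gam w (S.sg v) • a w = 0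
    refine Finset.sum_eq_zero fun w _ => ?_
    rw [h2 w v (fun h => hv (h ▸ w.2)) (fun h => hv (h ▸ hTinf)), zero_smul]
  -- the localisation map
  let Phi : (T → V1) →ₗ[ZMod 2] (T → V1 × V1) :=
    { toFun := fun a v => S.loc v (cc a)
      map_add' := by
        intro a b
        funext v
        have h : ∀ s, cc (a + b) s = cc a s + cc b s := by
          intro s
          change ∑ w : T, gam w s • (a w + b w) = _
          rw [← Finset.sum_add_distrib]
          exact Finset.sum_congr rfl fun w _ => smul_add _ _ _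
        exact Prod.ext (h _) (h _)
      map_smul' := by
        intro z a
        funext v
        have h : ∀ s, cc (z • a) s = z • cc a s := by
          intro s
          change ∑ w : T, gam w s • (z • a w) = z • ∑ w : T, gam w s • a w
          rw [Finset.smul_sum]
          exact Finset.sum_congr rfl fun w _ => smul_comm _ _ _
        exact Prod.ext (h _) (h _) }
  have hPhi : ∀ a (v : T), Phi a v = S.loc v (cc a) := fun _ _ => rfl
  have hinj : Function.Injective Phi := by
    rw [← LinearMap.ker_eq_bot, LinearMap.ker_eq_bot']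
    intro a ha
    have h5 : ∀ v : T, (v : Pl) ≠ S.inf → a v = 0 := by
      intro v hv
      have h6 := congrArg Prod.fst (congrFun ha v)
      rw [hPhi] at h6
      change cc a (S.sg v) = 0 at h6
      rwa [hsgT a v hv] at h6
    have h7 : a ⟨S.inf, hTinf⟩ = 0 := by
      have h6 := congrArg Prod.snd (congrFun ha ⟨S.inf, hTinf⟩)
      rw [hPhi] at h6
      change ∑ w : T, gam w (S.phi S.inf) • a w = 0 at h6
      rw [Finset.sum_eq_single ⟨S.inf, hTinf⟩] at h6
      · change gam S.inf (S.phi S.inf) • a ⟨S.inf, hTinf⟩ = 0 at h6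
        rwa [h3, one_smul] at h6
      · intro w _ hw
        rw [h5 w (fun h => hw (Subtype.ext h)), smul_zero]
      · intro h
        exact absurd (Finset.mem_univ _) h
    funext v
    by_cases hv : (v : Pl) = S.inf
    · have : v = ⟨S.inf, hTinf⟩ := Subtype.ext hv
      rw [this, h7]; rfl
    · exact h5 v hv
  have hYcard : Nat.card (LinearMap.range Phi) = 4 ^ Fintype.card T := by
    rw [← Nat.card_congr (LinearEquiv.ofInjective Phi hinj).toEquiv, Nat.card_pi]
    simp
  -- sums over all places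
  have hsum : ∀ f : Pl → ZMod 2, (∀ v, v ∉ T → f v = 0) → ∑ᶠ v, f v = ∑ v : T, f v := by
    intro f hf
    rw [finsum_eq_sum_of_support_subset (s := T) f, Finset.sum_coe_sort T]
    intro v hv
    by_contra h
    exact hv (hf v h)
  -- the local conditions
  let W' : Submodule (ZMod 2) (T → V1 × V1) :=
    { carrier := {x | ∀ v : T, x v ∈ W v}
      add_mem' := fun hx hy v => (W v).add_mem (hx v) (hy v)
      zero_mem' := fun v => (W v).zero_mem
      smul_mem' := by
        intro z x hx v
        have hz : z = 0 ∨ z = 1 := by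
          revert z; decide
        rcases hz with rfl | rfl
        · rw [zero_smul]; exact (W v).zero_mem
        · rw [one_smul]; exact hx v }
  have hW' : ∀ x, x ∈ W' ↔ ∀ v : T, x v ∈ W v := fun _ => Iff.rfl
  have hWcard : Nat.card W' = 4 ^ Fintype.card T := by
    have e : W' ≃ ∀ v : T, W v :=
      { toFun := fun x v => ⟨x.1 v, x.2 v⟩
        invFun := fun y => ⟨fun v => (y v).1, fun v => (y v).2⟩
        left_inv := fun x => rfl
        right_inv := fun y => rfl }
    rw [Nat.card_congr e, Nat.card_pi, ← Finset.card_univ (α := T), ← Finset.prod_const]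
    exact Finset.prod_congr rfl fun v _ => hcard v
  obtain ⟨y, hy, hxy⟩ := SmFDual_lin (fun v : T => S.eps v) (LinearMap.range Phi) W' hYcard
    hWcard (by
      rintro _ ⟨a, rfl⟩ _ ⟨b, rfl⟩
      rw [SmFDual_B_apply, ← recip (cc a) (cc b) (hccH a) (hccH b), hsum]
      · rfl
      · intro v hv
        exact SmFDual_sym_unr _ (hsgT' a v hv) (hsgT' b v hv))
    (by
      intro x hx y hy
      rw [SmFDual_B_apply]
      exact Finset.sum_eq_zero fun v _ => hiso v _ (hx v) _ (hy v))
    (fun v => xi v) (by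
      rintro _ ⟨a, rfl⟩ ha
      have hloc : ∀ v, S.loc v (cc a) ∈ W v := by
        intro v
        by_cases hv : v ∈ T
        · exact ha ⟨v, hv⟩
        · exact (hTunr v hv _).2 (hsgT' a v hv)
      rw [SmFDual_B_apply, ← horth (cc a) (hccH a) hloc, hsum]
      · rfl
      · intro v hv
        exact hiso v _ (hTxi v hv) _ (hloc v))
  obtain ⟨a, rfl⟩ := hy
  refine ⟨cc a, hccH a, fun v => ?_⟩
  by_cases hv : v ∈ T
  · have h := (W v).neg_mem (hxy ⟨v, hv⟩)
    have h8 : -((fun v : T => xi v) - Phi a) ⟨v, hv⟩ = S.loc v (cc a) - xi v := by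
      change -(xi v - S.loc v (cc a)) = _
      abel
    change -((fun v : T => xi v) - Phi a) ⟨v, hv⟩ ∈ W v at h
    rwa [h8] at h
  · exact (W v).sub_mem ((hTunr v hv _).2 (hsgT' a v hv)) (hTxi v hv)

end Sys

end

end Pool.Agent.Sm
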