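import Pool.Agent.Lib.SmF.Recip

/-!
# SMITH, block F: reciprocity for homomorphisms with values in `V1` (F2) and correction of the
ramification (F3)
-/

set_option autoImplicit false

open Polynomial Pool.Agent.BSDFF Pool.Agent.BSDP.R Pool.Agent.Lib.SmD Pool.Agent.Sm

namespace Pool.Agent.SmF

/-- The local symbol in terms of the pairs of values `(c sg, c phi)`. -/
def sym (ep : ZMod 2) (x y : V1 × V1) : ZMod 2 := ee x.1 y.2 + ee x.2 y.1 + ep * ee x.1 y.1

variable {k : Type} [Field k] {Ω : Type} [Field Ω] [Algebra (RatFunc k) Ω]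
  {sg ph : Place k (RatFunc k) → (Ω ≃ₐ[RatFunc k] Ω)}

/-- **Reciprocity** (F2). -/
theorem LocVals.recip [IsSepClosure (RatFunc k) Ω] [Finite k] (H : LocVals sg ph)
    (h2 : (2 : k) ≠ 0) (c d : (Ω ≃ₐ[RatFunc k] Ω) → V1) (hc : HomG c) (hd : HomG d) :
    ∑ᶠ v, sym (eps v) (c (sg v), c (ph v)) (d (sg v), d (ph v)) = 0 := by
  obtain ⟨f1, hf1, h1⟩ := kummer (two_ratFunc h2) hc.fst
  obtain ⟨f2, hf2, h3⟩ := kummer (two_ratFunc h2) hc.snd
  obtain ⟨g1, hg1, h4⟩ := kummer (two_ratFunc h2) hd.fst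
  obtain ⟨g2, hg2, h5⟩ := kummer (two_ratFunc h2) hd.snd
  have h6 : ∀ v, sym (eps v) (c (sg v), c (ph v)) (d (sg v), d (ph v)) =
      sy1 sg ph f1 g2 v + sy1 sg ph f2 g1 v := by
    intro v
    unfold sym ee sy1
    simp only [h1, h3, h4, h5]
    ring
  rw [finsum_congr h6, finsum_add_distrib (H.fin_sy1 h2 hf1 hg2) (H.fin_sy1 h2 hf2 hg1),
    H.recip1 h2 hf1 hg2, H.recip1 h2 hf2 hg1, add_zero]

/-- every `2`-finite homomorphism is unramified almost everywhere -/
theorem LocVals.fin_ramV [IsSepClosure (RatFunc k) Ω] (H : LocVals sg ph)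
    (h2 : (2 : k) ≠ 0) {c : (Ω ≃ₐ[RatFunc k] Ω) → V1} (hc : HomG c) :
    {v | c (sg v) ≠ 0}.Finite := by
  obtain ⟨f1, hf1, h1⟩ := kummer (two_ratFunc h2) hc.fst
  obtain ⟨f2, hf2, h3⟩ := kummer (two_ratFunc h2) hc.snd
  refine ((H.fin_ram h2 hf1).union (H.fin_ram h2 hf2)).subset ?_
  intro v hv
  by_contra hcon
  simp only [Set.mem_union, Set.mem_ofPred_eq, not_or, not_not] at hcon
  apply hv
  refine Prod.ext ?_ ?_
  · rw [h1]; exact hcon.1
  · rw [h3]; exact hcon.2

/-- `chi f ⊗ w` -/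
noncomputable def cw (f : RatFunc k) (w : V1) (s : Ω ≃ₐ[RatFunc k] Ω) : V1 :=
  (chi (RatFunc k) f s * w.1, chi (RatFunc k) f s * w.2)

theorem cw_homG [IsSepClosure (RatFunc k) Ω] (h2 : (2 : k) ≠ 0) {f : RatFunc k} (hf : f ≠ 0)
    (w : V1) : HomG (fun s : Ω ≃ₐ[RatFunc k] Ω => cw f w s) := by
  have h1 := chi_homG (Ω := Ω) (two_ratFunc h2) hf
  refine ⟨h1.1.comp fun x => (x * w.1, x * w.2), fun s t => ?_⟩
  change cw f w (s * t) = cw f w s + cw f w t
  unfold cw
  rw [chi_mul (two_ratFunc h2) hf, add_mul, add_mul]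
  rfl

theorem cw_zero {f : RatFunc k} {w : V1} {s : Ω ≃ₐ[RatFunc k] Ω}
    (h : chi (RatFunc k) f s = 0) : cw f w s = 0 := by
  unfold cw
  rw [h, zero_mul, zero_mul]
  rfl

theorem cw_one {f : RatFunc k} {w : V1} {s : Ω ≃ₐ[RatFunc k] Ω}
    (h : chi (RatFunc k) f s = 1) : cw f w s = w := by
  unfold cw
  rw [h, one_mul, one_mul]

/-- **Correction** (F3): a `2`-finite homomorphism with given ramification at a finite set of finite
places, unramified at the other finite places. -/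
theorem LocVals.corr [IsSepClosure (RatFunc k) Ω] (H : LocVals sg ph) (h2 : (2 : k) ≠ 0)
    (T : Finset (Place k (RatFunc k))) (hT : placeInfty k ∉ T) (w : Place k (RatFunc k) → V1) :
    ∃ c : (Ω ≃ₐ[RatFunc k] Ω) → V1, HomG c ∧ (∀ v ∈ T, c (sg v) = w v) ∧
      ∀ v, v ∉ T → v ≠ placeInfty k → c (sg v) = 0 := by
  classical
  induction T using Finset.induction_on with
  | empty => exact ⟨fun _ => 0, HomG.zero, by simp, fun _ _ _ => rfl⟩
  | insert v T hv ih =>
    rw [Finset.mem_insert, not_or] at hT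
    obtain ⟨c, h1, h3, h4⟩ := ih hT.2
    rcases place_cases v with rfl | ⟨P, hP, hm, rfl⟩
    · exact absurd rfl hT.1
    have hP0 : algebraMap k[X] (RatFunc k) P ≠ 0 := by simpa using hP.ne_zero
    have h5 : ∀ u : Place k (RatFunc k), u ≠ placeOf P hP → u ≠ placeInfty k →
        chi (RatFunc k) (algebraMap k[X] (RatFunc k) P) (sg u) = 0 := by
      intro u hu hui
      rcases place_cases u with rfl | ⟨Q, hQ, hmQ, rfl⟩
      · exact absurd rfl hui
      · refine H.sg_of_not_dvd hQ (not_dvd_of_ne hQ hmQ hP hm ?_)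
        rintro rfl
        exact hu rfl
    refine ⟨fun s => c s + cw (algebraMap k[X] (RatFunc k) P) (w (placeOf P hP)) s,
      h1.add (cw_homG h2 hP0 _), ?_, ?_⟩
    · intro u hu
      rcases Finset.mem_insert.1 hu with rfl | hu'
      · change c _ + cw _ _ _ = _
        rw [h4 _ hv (placeInfty_ne hP).symm, cw_one (H.sg_self hP), zero_add]
      · have hne : u ≠ placeOf P hP := by
          rintro rfl
          exact hv hu'
        have hni : u ≠ placeInfty k := by
          rintro rfl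
          exact hT.2 hu'
        change c _ + cw _ _ _ = _
        rw [h3 u hu', cw_zero (h5 u hne hni), add_zero]
    · intro u hu hui
      rw [Finset.mem_insert, not_or] at hu
      change c _ + cw _ _ _ = _
      rw [h4 u hu.2 hui, cw_zero (h5 u hu.1 hui), add_zero]

end Pool.Agent.SmF
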